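import Pool.Agent.T2H80.UP.Stm

/-!
# Package CN: the number of the hexagons containing given vertices
-/

set_option autoImplicit false

open Finset

namespace Pool.Agent.T2H80.UP

namespace PkgCN

variable {K m : ℕ}

open scoped Classical in
/-- the hexagons whose vertex number `g v` is `v` for all `v ∈ T` -/
noncomputable def Sg (T : Finset (Vx K m)) (g : ↥T → Fin 6) : Finset (Hx K m) :=
  univ.filter fun x => ∀ v : ↥T, vert x (g v) = v.1

open scoped Classical in
/-- replace the positions of the vertices of `T` -/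
noncomputable def rep (T : Finset (Vx K m)) (g : ↥T → Fin 6) (θ : Fin 6 → Fin m)
    (ζ : ↥T → Fin m) : Fin 6 → Fin m := fun i =>
  if h : ∃ v : ↥T, g v = i then ζ h.choose else θ i

theorem rep_at {T : Finset (Vx K m)} {g : ↥T → Fin 6} (hg : Function.Injective g)
    (θ : Fin 6 → Fin m) (ζ : ↥T → Fin m) (v : ↥T) : rep T g θ ζ (g v) = ζ v := by
  have h : ∃ w : ↥T, g w = g v := ⟨v, rfl⟩
  unfold rep
  rw [dif_pos h]
  congr 1
  exact hg h.choose_spec

theorem rep_off {T : Finset (Vx K m)} {g : ↥T → Fin 6}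
    (θ : Fin 6 → Fin m) (ζ : ↥T → Fin m) {i : Fin 6} (h : ¬ ∃ v : ↥T, g v = i) :
    rep T g θ ζ i = θ i := by
  unfold rep
  rw [dif_neg h]

theorem card_Sg {T : Finset (Vx K m)} (hT : T.Nonempty) (g : ↥T → Fin 6) :
    (Sg T g).card * m ^ T.card ≤ K * m ^ 6 := by
  classical
  rcases (Sg T g).eq_empty_or_nonempty with h0 | ⟨x0, hx0⟩
  · rw [h0]
    simp
  have hg : Function.Injective g := by
    intro v w h
    have h1 := (Finset.mem_filter.mp hx0).2
    apply Subtype.ext
    rw [← h1 v, ← h1 w, h]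
  obtain ⟨v0, hv0⟩ := hT
  have e1 : (Sg T g).card * m ^ T.card =
      ((Sg T g) ×ˢ (univ : Finset (↥T → Fin m))).card := by
    rw [Finset.card_product, Finset.card_univ, Fintype.card_fun, Fintype.card_fin, Fintype.card_coe]
  have e2 : K * m ^ 6 = (univ : Finset (Fin K × (Fin 6 → Fin m))).card := by
    rw [Finset.card_univ, Fintype.card_prod, Fintype.card_fun, Fintype.card_fin, Fintype.card_fin,
      Fintype.card_fin]
  rw [e1, e2]
  refine Finset.card_le_card_of_injOn
    (fun p : Hx K m × (↥T → Fin m) => (p.1.1.1, rep T g p.1.2 p.2))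
    (fun p _ => Finset.mem_coe.mpr (Finset.mem_univ _)) ?_
  rintro ⟨⟨⟨j, t⟩, θ⟩, ζ⟩ hp ⟨⟨⟨j', t'⟩, θ'⟩, ζ'⟩ hp' h
  obtain ⟨hp1, -⟩ := Finset.mem_product.mp (Finset.mem_coe.mp hp)
  obtain ⟨hp1', -⟩ := Finset.mem_product.mp (Finset.mem_coe.mp hp')
  have q := (Finset.mem_filter.mp hp1).2
  have q' := (Finset.mem_filter.mp hp1').2
  simp only [Prod.mk.injEq] at h
  obtain ⟨hj, hr⟩ := h
  subst hj
  have hζ : ζ = ζ' := by
    funext v
    rw [← rep_at hg θ ζ v, ← rep_at hg θ' ζ' v, hr]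
  have hθ : θ = θ' := by
    funext i
    by_cases hi : ∃ v : ↥T, g v = i
    · obtain ⟨v, rfl⟩ := hi
      have a1 := congrArg Prod.snd (q v)
      have a2 := congrArg Prod.snd (q' v)
      simp only [vert] at a1 a2
      rw [a1, a2]
    · rw [← rep_off θ ζ hi, ← rep_off θ' ζ' hi, hr]
  have ht : t = t' := by
    have a1 := congrArg Prod.fst (q ⟨v0, hv0⟩)
    have a2 := congrArg Prod.fst (q' ⟨v0, hv0⟩)
    simp only [vert] at a1 a2
    exact add_right_cancel (a1.trans a2.symm)
  rw [hζ, hθ, ht]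

end PkgCN

open PkgCN in
theorem pCN : S_CN := by
  classical
  intro K m T hT
  have hsub : (univ.filter fun x : Hx K m => T ⊆ vset x) ⊆
      (univ : Finset (↥T → Fin 6)).biUnion (fun g => Sg T g) := by
    intro x hx
    have h1 := (Finset.mem_filter.mp hx).2
    have h2 : ∀ v : ↥T, ∃ i, vert x i = v.1 := by
      intro v
      obtain ⟨i, -, hi⟩ := Finset.mem_image.mp (h1 v.2)
      exact ⟨i, hi⟩
    choose g hg using h2
    exact Finset.mem_biUnion.mpr ⟨g, Finset.mem_univ _, Finset.mem_filter.mpr ⟨Finset.mem_univ _, hg⟩⟩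
  calc (univ.filter fun x : Hx K m => T ⊆ vset x).card * m ^ T.card
      ≤ (∑ g : ↥T → Fin 6, (Sg T g).card) * m ^ T.card :=
        Nat.mul_le_mul_right _ ((Finset.card_le_card hsub).trans Finset.card_biUnion_le)
    _ = ∑ g : ↥T → Fin 6, (Sg T g).card * m ^ T.card := Finset.sum_mul _ _ _
    _ ≤ ∑ _g : ↥T → Fin 6, K * m ^ 6 := Finset.sum_le_sum fun g _ => card_Sg hT g
    _ = 6 ^ T.card * K * m ^ 6 := by
        rw [Finset.sum_const, Finset.card_univ, Fintype.card_fun, Fintype.card_fin,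
          Fintype.card_coe, smul_eq_mul, mul_assoc]

end Pool.Agent.T2H80.UP
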