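import Pool.Agent.T2H80.UP.Stm

/-!
# Package COV: from a labelled colouring to a union book embedding (helper23)
-/

set_option autoImplicit false

open Finset

namespace Pool.Agent.T2H80.UP

namespace PkgCOV

theorem unionPage {V ι : Type} [Finite V] {σ : V → ℕ} {lab : Sym2 V → ι} {U : Set (Sym2 V)}
    (h : LU σ lab U) : IsUnionPage σ U := by
  classical
  have : Fintype V := Fintype.ofFinite V
  have hfin : Finite (Sym2 V) := Finite.of_fintype _
  obtain ⟨m, ⟨φ⟩⟩ : ∃ m, Nonempty (Set.range lab ≃ Fin m) := by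
    obtain ⟨m, ⟨φ⟩⟩ := Finite.exists_equiv_fin (Set.range lab)
    exact ⟨m, ⟨φ⟩⟩
  refine ⟨m, fun a => {e | e ∈ U ∧ lab e = (φ.symm a : ι)}, ?_, ?_, ?_, ?_⟩
  · intro i a b c d hab hcd
    exact h.2 a b c d hab.1 hcd.1 (hab.2.trans hcd.2.symm)
  · ext e
    simp only [Set.mem_iUnion, Set.mem_setOf_eq]
    constructor
    · rintro ⟨i, he, -⟩
      exact he
    · intro he
      exact ⟨φ ⟨lab e, Set.mem_range_self e⟩, he, by rw [Equiv.symm_apply_apply]⟩
  · intro i j hij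
    rw [Set.disjoint_left]
    rintro e ⟨-, h1⟩ ⟨-, h2⟩
    exact hij (φ.symm.injective (Subtype.ext (h1.symm.trans h2)))
  · rintro v i j ⟨e, ⟨he, h1⟩, hv⟩ ⟨f, ⟨hf, h2⟩, hv'⟩
    have h3 := h.1 e he f hf v hv hv'
    exact φ.symm.injective (Subtype.ext (h1.symm.trans (h3.trans h2)))

end PkgCOV

theorem pCOV : S_COV := by
  intro V ι _ σ hσ k c lab h
  refine ⟨σ, hσ, fun i => {e | ¬ e.IsDiag ∧ c e = i}, fun i => PkgCOV.unionPage (h i), ?_, ?_⟩
  · ext e
    rw [SimpleGraph.edgeSet_top]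
    simp only [Set.mem_iUnion, Set.mem_setOf_eq]
    constructor
    · rintro ⟨i, he, -⟩
      exact he
    · intro he
      exact ⟨c e, he, rfl⟩
  · intro i j hij
    rw [Set.disjoint_left]
    rintro e ⟨-, h1⟩ ⟨-, h2⟩
    exact hij (h1.symm.trans h2)

end Pool.Agent.T2H80.UP
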