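import Pool.Agent.T2H80.UP.Stm

/-!
# Package DZ: the base hexagons form a difference family (helper23)
-/

set_option autoImplicit false

open Finset

namespace Pool.Agent.T2H80.UP

namespace PkgDZ

/-- the values of the nine differences -/
theorem vals {K j : ℕ} (hj : j < K) {e : Fin 6 × Fin 6} (he : e ∈ E9) :
    (e = (0, 1) ∧ Sk K j e.2 = Sk K j e.1 + (2 * K + 1 + j)) ∨
    (e = (1, 2) ∧ Sk K j e.2 = Sk K j e.1 + (5 * K + 1 - 2 * j)) ∨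
    (e = (2, 3) ∧ Sk K j e.2 = Sk K j e.1 + (2 * j + 1)) ∨
    (e = (3, 4) ∧ Sk K j e.2 = Sk K j e.1 + (6 * K + 2 - j)) ∨
    (e = (4, 5) ∧ Sk K j e.2 = Sk K j e.1 + (3 * K + 2 + 2 * j)) ∨
    (e = (0, 5) ∧ Sk K j e.2 = Sk K j e.1 + (16 * K + 7 + 2 * j)) ∨
    (e = (0, 2) ∧ Sk K j e.2 = Sk K j e.1 + (7 * K + 2 - j)) ∨
    (e = (0, 3) ∧ Sk K j e.2 = Sk K j e.1 + (7 * K + 3 + j)) ∨
    (e = (3, 5) ∧ Sk K j e.2 = Sk K j e.1 + (9 * K + 4 + j)) := by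
  have h0 : Sk K j 0 = 0 := rfl
  have h1 : Sk K j 1 = 2 * K + 1 + j := rfl
  have h2 : Sk K j 2 = 7 * K + 2 - j := rfl
  have h3 : Sk K j 3 = 7 * K + 3 + j := rfl
  have h4 : Sk K j 4 = 13 * K + 5 := rfl
  have h5 : Sk K j 5 = 16 * K + 7 + 2 * j := rfl
  simp only [E9, Finset.mem_insert, Finset.mem_singleton] at he
  rcases he with rfl | rfl | rfl | rfl | rfl | rfl | rfl | rfl | rfl
  · exact Or.inl ⟨rfl, by show Sk K j 1 = Sk K j 0 + _; omega⟩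
  · exact Or.inr (Or.inl ⟨rfl, by show Sk K j 2 = Sk K j 1 + _; omega⟩)
  · exact Or.inr (Or.inr (Or.inl ⟨rfl, by show Sk K j 3 = Sk K j 2 + _; omega⟩))
  · exact Or.inr (Or.inr (Or.inr (Or.inl ⟨rfl, by show Sk K j 4 = Sk K j 3 + _; omega⟩)))
  · exact Or.inr (Or.inr (Or.inr (Or.inr (Or.inl ⟨rfl, by
      show Sk K j 5 = Sk K j 4 + _; omega⟩))))
  · exact Or.inr (Or.inr (Or.inr (Or.inr (Or.inr (Or.inl ⟨rfl, by
      show Sk K j 5 = Sk K j 0 + _; omega⟩)))))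
  · exact Or.inr (Or.inr (Or.inr (Or.inr (Or.inr (Or.inr (Or.inl ⟨rfl, by
      show Sk K j 2 = Sk K j 0 + _; omega⟩))))))
  · exact Or.inr (Or.inr (Or.inr (Or.inr (Or.inr (Or.inr (Or.inr (Or.inl ⟨rfl, by
      show Sk K j 3 = Sk K j 0 + _; omega⟩)))))))
  · exact Or.inr (Or.inr (Or.inr (Or.inr (Or.inr (Or.inr (Or.inr (Or.inr ⟨rfl, by
      show Sk K j 5 = Sk K j 3 + _; omega⟩)))))))

/-- the differences determine the edge and the hexagon -/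
theorem same {K j j' : ℕ} (hj : j < K) (hj' : j' < K) {e f : Fin 6 × Fin 6} (he : e ∈ E9)
    (hf : f ∈ E9) {D : ℕ} (h : Sk K j e.2 = Sk K j e.1 + D) (h' : Sk K j' f.2 = Sk K j' f.1 + D) :
    j = j' ∧ e = f := by
  rcases vals hj he with ⟨rfl, h1⟩ | ⟨rfl, h1⟩ | ⟨rfl, h1⟩ | ⟨rfl, h1⟩ | ⟨rfl, h1⟩ | ⟨rfl, h1⟩ |
    ⟨rfl, h1⟩ | ⟨rfl, h1⟩ | ⟨rfl, h1⟩ <;>
  rcases vals hj' hf with ⟨rfl, h2⟩ | ⟨rfl, h2⟩ | ⟨rfl, h2⟩ | ⟨rfl, h2⟩ | ⟨rfl, h2⟩ | ⟨rfl, h2⟩ |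
    ⟨rfl, h2⟩ | ⟨rfl, h2⟩ | ⟨rfl, h2⟩ <;>
  first
    | exact ⟨by omega, rfl⟩
    | (exfalso; omega)

/-- two differences do not add up to the modulus -/
theorem opp {K j j' : ℕ} (hj : j < K) (hj' : j' < K) {e f : Fin 6 × Fin 6} (he : e ∈ E9)
    (hf : f ∈ E9) {D D' : ℕ} (h : Sk K j e.2 = Sk K j e.1 + D) (h' : Sk K j' f.2 = Sk K j' f.1 + D')
    (hD : D + D' = 18 * K + 7) : False := by
  rcases vals hj he with ⟨rfl, h1⟩ | ⟨rfl, h1⟩ | ⟨rfl, h1⟩ | ⟨rfl, h1⟩ | ⟨rfl, h1⟩ | ⟨rfl, h1⟩ |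
    ⟨rfl, h1⟩ | ⟨rfl, h1⟩ | ⟨rfl, h1⟩ <;>
  rcases vals hj' hf with ⟨rfl, h2⟩ | ⟨rfl, h2⟩ | ⟨rfl, h2⟩ | ⟨rfl, h2⟩ | ⟨rfl, h2⟩ | ⟨rfl, h2⟩ |
    ⟨rfl, h2⟩ | ⟨rfl, h2⟩ | ⟨rfl, h2⟩ <;>
  omega

theorem rng {K j : ℕ} (hj : j < K) {e : Fin 6 × Fin 6} (he : e ∈ E9) :
    ∃ D : ℕ, 0 < D ∧ D < 18 * K + 7 ∧ Sk K j e.2 = Sk K j e.1 + D := by
  rcases vals hj he with ⟨-, h1⟩ | ⟨-, h1⟩ | ⟨-, h1⟩ | ⟨-, h1⟩ | ⟨-, h1⟩ | ⟨-, h1⟩ |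
    ⟨-, h1⟩ | ⟨-, h1⟩ | ⟨-, h1⟩ <;>
  exact ⟨_, by omega, by omega, h1⟩

end PkgDZ

open PkgDZ in
theorem pDZ : S_DZ := by
  intro K j j' t t' e he f hf h
  obtain ⟨D, hD0, hD1, hD⟩ := rng j.2 he
  obtain ⟨D', hD'0, hD'1, hD'⟩ := rng j'.2 hf
  rw [hD, hD'] at h
  push_cast at h
  rw [Sym2.eq_iff] at h
  rcases h with ⟨h1, h2⟩ | ⟨h1, h2⟩
  · have h3 : ((D : ℕ) : ZMod (Md K)) = ((D' : ℕ) : ZMod (Md K)) := by
      linear_combination h2 - h1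
    rw [ZMod.natCast_eq_natCast_iff'] at h3
    rw [Nat.mod_eq_of_lt hD1, Nat.mod_eq_of_lt hD'1] at h3
    subst h3
    obtain ⟨h4, h5⟩ := same j.2 j'.2 he hf hD hD'
    have h6 : j = j' := Fin.ext h4
    subst h6
    subst h5
    exact ⟨rfl, rfl, by linear_combination h1⟩
  · exfalso
    have h3 : ((D + D' : ℕ) : ZMod (Md K)) = 0 := by
      push_cast
      linear_combination h2 - h1
    rw [ZMod.natCast_eq_zero_iff] at h3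
    obtain ⟨c, hc⟩ := h3
    have h4 : c = 1 := by
      have hM : Md K = 18 * K + 7 := rfl
      rw [hM] at hc
      rcases Nat.lt_or_ge c 1 with h | h
      · interval_cases c
        omega
      · rcases Nat.lt_or_ge c 2 with h' | h'
        · omega
        · exfalso
          have := Nat.mul_le_mul_left (18 * K + 7) h'
          omega
    subst h4
    exact opp j.2 j'.2 he hf hD hD' (by rw [hc, mul_one])

end Pool.Agent.T2H80.UP
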