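import Pool.Agent.T2H80.UP.Stm

/-!
# Package FI : the limit
-/

set_option autoImplicit false

open Finset Filter

namespace Pool.Agent.T2H80.UP

theorem pFI (hLB : S_LB) (hUP : S_UP) : S_FI := by
  have hlow : ∀ n : ℕ, 1 ≤ n → (∃ k, UnionBook (⊤ : SimpleGraph (Fin n)) k) →
      (1 / 3 : ℝ) - 1 / n ≤ (pnu (⊤ : SimpleGraph (Fin n)) : ℝ) / n := by
    intro n hn hex
    have h1 : UnionBook (⊤ : SimpleGraph (Fin n)) (pnu (⊤ : SimpleGraph (Fin n))) :=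
      Nat.sInf_mem hex
    have h2 := hLB n _ h1
    have h3 : (n : ℝ) ^ 3 ≤ 3 * (pnu (⊤ : SimpleGraph (Fin n)) : ℝ) * n ^ 2 + n := by exact_mod_cast h2
    have hn' : (1 : ℝ) ≤ n := by exact_mod_cast hn
    have hn0 : (0 : ℝ) < n := by linarith
    set p : ℝ := (pnu (⊤ : SimpleGraph (Fin n)) : ℝ) with hp
    rw [le_div_iff₀ hn0]
    have h4 : ((1 / 3 : ℝ) - 1 / n) * n = n / 3 - 1 := by
      field_simp
    rw [h4]
    have h5 : (n : ℝ) ^ 2 ≤ 3 * p * n + 1 := by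
      have h6 : n * (n : ℝ) ^ 2 ≤ n * (3 * p * n + 1) := by nlinarith
      exact le_of_mul_le_mul_left h6 hn0
    have h7 : n * ((n : ℝ) / 3 - 1) ≤ n * p := by nlinarith
    exact le_of_mul_le_mul_left h7 hn0
  unfold S_FI
  rw [Metric.tendsto_atTop]
  intro ε hε
  obtain ⟨n₀, hn₀⟩ := hUP (ε / 2) (by positivity)
  obtain ⟨n₁, hn₁⟩ := exists_nat_gt (1 / ε)
  refine ⟨n₀ + n₁ + 1, fun n hn => ?_⟩
  obtain ⟨k, hk, hkn⟩ := hn₀ n (by omega)
  have hn1 : 1 ≤ n := by omega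
  have hn' : (1 : ℝ) ≤ n := by exact_mod_cast hn1
  have hn0 : (0 : ℝ) < n := by linarith
  have h1 := hlow n hn1 ⟨k, hk⟩
  have h2 : pnu (⊤ : SimpleGraph (Fin n)) ≤ k := Nat.sInf_le hk
  have h3 : (pnu (⊤ : SimpleGraph (Fin n)) : ℝ) / n ≤ 1 / 3 + ε / 2 := by
    rw [div_le_iff₀ hn0]
    have : (pnu (⊤ : SimpleGraph (Fin n)) : ℝ) ≤ k := by exact_mod_cast h2
    linarith
  have h4 : (1 : ℝ) / n < ε := by
    rw [div_lt_iff₀ hn0]
    have h5 : (n₁ : ℝ) ≤ n := by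
      have : n₁ ≤ n := by omega
      exact_mod_cast this
    have h6 : 1 / ε < n := lt_of_lt_of_le hn₁ h5
    rw [div_lt_iff₀ hε] at h6
    linarith
  rw [Real.dist_eq, abs_lt]
  constructor
  · linarith
  · linarith

end Pool.Agent.T2H80.UP
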