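import Pool.Agent.T2H80.UP.Stm

set_option autoImplicit false

/-!
# GR (helper92): greedy colouring of the edges
-/

open Finset

namespace Pool.Agent.T2H80.UP

theorem pGR : S_GR := by
  intro V _ R D
  induction R using Finset.induction_on with
  | empty =>
    intro _
    exact ⟨fun _ => 0, by simp⟩
  | insert e R he ih =>
    intro hD
    obtain ⟨c, hc⟩ := ih fun v => (card_le_card (filter_subset_filter _ (subset_insert e R))).trans (hD v)
    -- the edges of `R` with a vertex in common with `e`
    haveI : DecidablePred fun g : Sym2 V => ∃ v, v ∈ e ∧ v ∈ g := Classical.decPred _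
    set N : Finset (Sym2 V) := R.filter fun g => ∃ v, v ∈ e ∧ v ∈ g with hN
    have hNc : N.card ≤ 2 * D := by
      induction e using Sym2.ind with
      | _ a b =>
        have h1 : N ⊆ (R.filter fun g => a ∈ g) ∪ (R.filter fun g => b ∈ g) := by
          intro g hg
          rw [hN, mem_filter] at hg
          obtain ⟨hgR, v, hv, hvg⟩ := hg
          rw [mem_union, mem_filter, mem_filter]
          rcases Sym2.mem_iff.1 hv with rfl | rfl
          · exact Or.inl ⟨hgR, hvg⟩
          · exact Or.inr ⟨hgR, hvg⟩
        have h2 : ∀ v : V, (R.filter fun g => v ∈ g).card ≤ D := fun v =>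
          (card_le_card (filter_subset_filter _ (subset_insert _ R))).trans (hD v)
        calc N.card ≤ _ := card_le_card h1
          _ ≤ _ := card_union_le _ _
          _ ≤ 2 * D := by have := h2 a; have := h2 b; omega
    have hex : ∃ x : Fin (2 * D + 1), x ∉ N.image c := by
      by_contra hcon
      push Not at hcon
      have h1 : (univ : Finset (Fin (2 * D + 1))) ⊆ N.image c := fun x _ => hcon x
      have h2 := card_le_card h1
      rw [card_univ, Fintype.card_fin] at h2
      have := card_image_le (s := N) (f := c)
      omega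
    obtain ⟨x, hx⟩ := hex
    have hx' : ∀ g ∈ R, (∃ v, v ∈ e ∧ v ∈ g) → c g ≠ x := by
      intro g hg hv hcx
      exact hx (mem_image.2 ⟨g, by rw [hN, mem_filter]; exact ⟨hg, hv⟩, hcx⟩)
    refine ⟨Function.update c e x, ?_⟩
    intro g hg g' hg' hne hv
    have hne' : ∀ g ∈ R, g ≠ e := fun g hg h => he (h ▸ hg)
    rcases mem_insert.1 hg with rfl | hgR
    · rcases mem_insert.1 hg' with rfl | hgR'
      · exact absurd rfl hne
      · rw [Function.update_self, Function.update_of_ne (hne' _ hgR')]
        exact fun h => hx' _ hgR' hv h.symm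
    · rcases mem_insert.1 hg' with rfl | hgR'
      · rw [Function.update_self, Function.update_of_ne (hne' _ hgR)]
        obtain ⟨v, h1, h2⟩ := hv
        exact hx' _ hgR ⟨v, h2, h1⟩
      · rw [Function.update_of_ne (hne' _ hgR), Function.update_of_ne (hne' _ hgR')]
        exact hc _ hgR _ hgR' hne hv

end Pool.Agent.T2H80.UP
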