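import Pool.Agent.T2H80.UP.Stm

/-! # Package HX: the edges of a hexagon do not cross -/

set_option autoImplicit false

open Finset

namespace Pool.Agent.T2H80.UP

namespace PkgHX

/-- pure combinatorics of the nine edges -/
theorem comb : ∀ r : Fin 6, ∀ p ∈ E9, ∀ q ∈ E9, ∀ a b c d : Fin 6,
    (a = p.1 ∧ b = p.2 ∨ a = p.2 ∧ b = p.1) → (c = q.1 ∧ d = q.2 ∨ c = q.2 ∧ d = q.1) →
    ¬ (a - r < c - r ∧ c - r < b - r ∧ b - r < d - r) := by
  intro r p hp q hq a b c d h1 h2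
  rcases h1 with ⟨rfl, rfl⟩ | ⟨rfl, rfl⟩ <;> rcases h2 with ⟨rfl, rfl⟩ | ⟨rfl, rfl⟩
  · revert r p q; decide +kernel
  · revert r p q; decide +kernel
  · revert r p q; decide +kernel
  · revert r p q; decide +kernel

/-- the cyclic order -/
theorem cyc (M t : ℕ) (s A : Fin 6 → ℕ) (ht : t < M) (h0 : s 0 = 0) (h1 : s 0 < s 1) (h2 : s 1 < s 2)
    (h3 : s 2 < s 3) (h4 : s 3 < s 4) (h5 : s 4 < s 5) (h6 : s 5 < M)
    (hA : ∀ i, (t + s i < M ∧ A i = t + s i) ∨ (M ≤ t + s i ∧ A i + M = t + s i)) :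
    ∃ r : Fin 6, ∀ i j : Fin 6, A i < A j ↔ i - r < j - r := by
  have a0 := hA 0
  have a1 := hA 1
  have a2 := hA 2
  have a3 := hA 3
  have a4 := hA 4
  have a5 := hA 5
  by_cases c5 : t + s 5 < M
  · refine ⟨0, fun i j => ?_⟩
    fin_cases i <;> fin_cases j <;> simp (decide := true) <;> omega
  by_cases c4 : t + s 4 < M
  · refine ⟨5, fun i j => ?_⟩
    fin_cases i <;> fin_cases j <;> simp (decide := true) <;> omega
  by_cases c3 : t + s 3 < M
  · refine ⟨4, fun i j => ?_⟩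
    fin_cases i <;> fin_cases j <;> simp (decide := true) <;> omega
  by_cases c2 : t + s 2 < M
  · refine ⟨3, fun i j => ?_⟩
    fin_cases i <;> fin_cases j <;> simp (decide := true) <;> omega
  by_cases c1 : t + s 1 < M
  · refine ⟨2, fun i j => ?_⟩
    fin_cases i <;> fin_cases j <;> simp (decide := true) <;> omega
  · refine ⟨1, fun i j => ?_⟩
    fin_cases i <;> fin_cases j <;> simp (decide := true) <;> omega

end PkgHX

open PkgHX in
theorem pHX : S_HX := by
  intro K m x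
  obtain ⟨⟨j, t⟩, θ⟩ := x
  have hM : NeZero (Md K) := ⟨by unfold Md; omega⟩
  have hj := j.2
  set s : Fin 6 → ℕ := Sk K j with hs
  set A : Fin 6 → ℕ := fun i => (t + (s i : ZMod (Md K))).val with hA
  have e0 : s 0 = 0 := rfl
  have e1 : s 1 = 2 * K + 1 + j := rfl
  have e2 : s 2 = 7 * K + 2 - j := rfl
  have e3 : s 3 = 7 * K + 3 + j := rfl
  have e4 : s 4 = 13 * K + 5 := rfl
  have e5 : s 5 = 16 * K + 7 + 2 * j := rfl
  have eM : Md K = 18 * K + 7 := rfl
  have htv : t.val < Md K := ZMod.val_lt t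
  have hlt : ∀ i, s i < Md K := by
    intro i
    fin_cases i
    · show s 0 < _
      omega
    · show s 1 < _
      omega
    · show s 2 < _
      omega
    · show s 3 < _
      omega
    · show s 4 < _
      omega
    · show s 5 < _
      omega
  have hAi : ∀ i, (t.val + s i < Md K ∧ A i = t.val + s i) ∨
      (Md K ≤ t.val + s i ∧ A i + Md K = t.val + s i) := by
    intro i
    have h1 : A i = (t.val + s i) % Md K := by
      simp only [hA]
      rw [ZMod.val_add, ZMod.val_natCast, Nat.mod_eq_of_lt (hlt i)]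
    have h2 := hlt i
    by_cases h3 : t.val + s i < Md K
    · left
      exact ⟨h3, by rw [h1, Nat.mod_eq_of_lt h3]⟩
    · right
      refine ⟨not_lt.1 h3, ?_⟩
      rw [h1, Nat.mod_eq_sub_mod (not_lt.1 h3), Nat.mod_eq_of_lt (by omega)]
      omega
  obtain ⟨r, hr⟩ := cyc (Md K) t.val s A htv e0 (by omega) (by omega) (by omega) (by omega)
    (by omega) (by omega) hAi
  have hinj : ∀ i i', A i = A i' → i = i' := by
    intro i i' h
    have h1 : ¬ (i - r < i' - r) := by rw [← hr, h]; exact lt_irrefl _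
    have h2 : ¬ (i' - r < i - r) := by rw [← hr, h]; exact lt_irrefl _
    have h3 : i - r = i' - r := le_antisymm (not_lt.1 h2) (not_lt.1 h1)
    exact sub_left_injective h3
  set x : Hx K m := ((j, t), θ) with hx
  have hv : ∀ i, (vert x i).1.val = A i := fun i => rfl
  have hord : ∀ i i', ord K m (vert x i) < ord K m (vert x i') → i - r < i' - r := by
    intro i i' h
    rw [← hr]
    by_contra hcon
    unfold ord at h
    rw [hv, hv] at h
    have b1 := (vert x i).2.2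
    have b2 := (vert x i').2.2
    rcases eq_or_lt_of_le (not_lt.1 hcon) with h1 | h1
    · have h2 := hinj _ _ h1
      subst h2
      exact lt_irrefl _ h
    · have h2 : (A i' + 1) * m ≤ A i * m := Nat.mul_le_mul_right _ h1
      rw [add_mul, one_mul] at h2
      omega
  refine ⟨fun i i' h => hinj i i' ?_, ?_⟩
  · rw [← hv, ← hv, h]
  · intro a b c d hab hcd ⟨h1, h2, h3⟩
    unfold eset at hab hcd
    rw [mem_image] at hab hcd
    obtain ⟨p, hp, hpe⟩ := hab
    obtain ⟨q, hq, hqe⟩ := hcd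
    rw [Sym2.eq_iff] at hpe hqe
    obtain ⟨ia, ib, hp1, rfl, rfl⟩ : ∃ ia ib, (ia = p.1 ∧ ib = p.2 ∨ ia = p.2 ∧ ib = p.1) ∧
        vert x ia = a ∧ vert x ib = b := by
      rcases hpe with ⟨h4, h5⟩ | ⟨h4, h5⟩
      · exact ⟨p.1, p.2, Or.inl ⟨rfl, rfl⟩, h4, h5⟩
      · exact ⟨p.2, p.1, Or.inr ⟨rfl, rfl⟩, h5, h4⟩
    obtain ⟨ic, id, hq1, rfl, rfl⟩ : ∃ ic id, (ic = q.1 ∧ id = q.2 ∨ ic = q.2 ∧ id = q.1) ∧
        vert x ic = c ∧ vert x id = d := by
      rcases hqe with ⟨h4, h5⟩ | ⟨h4, h5⟩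
      · exact ⟨q.1, q.2, Or.inl ⟨rfl, rfl⟩, h4, h5⟩
      · exact ⟨q.2, q.1, Or.inr ⟨rfl, rfl⟩, h5, h4⟩
    exact comb r p hp q hq ia ib ic id hp1 hq1 ⟨hord _ _ h1, hord _ _ h2, hord _ _ h3⟩

end Pool.Agent.T2H80.UP
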