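import Pool.Agent.T2H80.UP.Stm

/-! # Package LB: the lower bound -/

set_option autoImplicit false

open Finset

namespace Pool.Agent.T2H80.UP

theorem pLB (hLW : S_LW) (hLS : S_LS) : S_LB := by
  classical
  intro n k hbook
  rcases Nat.eq_zero_or_pos n with hn | hn
  · subst hn; simp
  obtain ⟨σ, hσ, U, hU, hUe, -⟩ := hbook
  -- the order
  have hcard : (univ.image σ).card = n := by
    rw [card_image_of_injective _ hσ, card_univ, Fintype.card_fin]
  set E := (univ.image σ).orderIsoOfFin hcard with hE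
  have hex : ∀ a : Fin n, ∃ v : Fin n, σ v = (E a : ℕ) := by
    intro a
    have := (E a).2
    rw [mem_image] at this
    obtain ⟨v, _, hv⟩ := this
    exact ⟨v, hv⟩
  choose τ hτ using hex
  have hτmono : ∀ a b : Fin n, a < b → σ (τ a) < σ (τ b) := by
    intro a b hab
    rw [hτ, hτ]
    exact E.strictMono hab
  have hτinj : Function.Injective τ := by
    intro a b hab
    by_contra hne
    rcases lt_or_gt_of_ne hne with h | h
    · have := hτmono _ _ h; rw [hab] at this; exact lt_irrefl _ this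
    · have := hτmono _ _ h; rw [hab] at this; exact lt_irrefl _ this
  set τ' : ℕ → Fin n := fun a => if h : a < n then τ ⟨a, h⟩ else ⟨0, hn⟩ with hτ'
  have hτ'_lt : ∀ a b : ℕ, a < b → b < n → σ (τ' a) < σ (τ' b) := by
    intro a b hab hb
    simp only [hτ', hab.trans hb, hb, dif_pos]
    exact hτmono _ _ hab
  set ED : Finset (ℕ × ℕ) := (range n ×ˢ range n).filter (fun e => e.1 < e.2) with hED
  -- the pages
  choose mm P hP using hU
  -- every edge is in a page
  have hin : ∀ e ∈ ED, ∃ i : Fin k, ∃ j : Fin (mm i), s(τ' e.1, τ' e.2) ∈ P i j := by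
    intro e he
    rw [hED, mem_filter, mem_product, mem_range, mem_range] at he
    have hne : τ' e.1 ≠ τ' e.2 := by
      intro h
      have := hτ'_lt e.1 e.2 he.2 he.1.2
      rw [h] at this
      exact lt_irrefl _ this
    have h1 : s(τ' e.1, τ' e.2) ∈ ⋃ i, U i := by
      rw [hUe, SimpleGraph.mem_edgeSet, SimpleGraph.top_adj]
      exact hne
    obtain ⟨i, hi⟩ := Set.mem_iUnion.1 h1
    rw [← (hP i).2.1] at hi
    obtain ⟨j, hj⟩ := Set.mem_iUnion.1 hi
    exact ⟨i, j, hj⟩
  -- the weights
  have hpage : ∀ (i : Fin k) (j : Fin (mm i)),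
      ∑ e ∈ ED.filter (fun e => s(τ' e.1, τ' e.2) ∈ P i j), yw n (e.2 - e.1) ≤
        n * ((range n).filter (fun a => ∃ e ∈ P i j, τ' a ∈ e)).card := by
    intro i j
    refine hLW n _ _ ?_ ?_ ?_
    · intro w hw
      exact mem_range.1 (mem_filter.1 hw).1
    · intro e he
      rw [mem_filter, hED, mem_filter, mem_product] at he
      obtain ⟨⟨⟨h1, h2⟩, h3⟩, h4⟩ := he
      refine ⟨mem_filter.2 ⟨h1, _, h4, ?_⟩, mem_filter.2 ⟨h2, _, h4, ?_⟩, h3⟩
      · exact Sym2.mem_mk_left _ _
      · exact Sym2.mem_mk_right _ _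
    · intro e he f hf ⟨h1, h2, h3⟩
      rw [mem_filter, hED, mem_filter, mem_product, mem_range, mem_range] at he hf
      refine (hP i).1 j (τ' e.1) (τ' e.2) (τ' f.1) (τ' f.2) he.2 hf.2 ⟨?_, ?_, ?_⟩
      · exact hτ'_lt _ _ h1 hf.1.1.1
      · exact hτ'_lt _ _ h2 he.1.1.2
      · exact hτ'_lt _ _ h3 hf.1.1.2
  have hvert : ∀ i : Fin k, ∑ j : Fin (mm i),
      ((range n).filter (fun a => ∃ e ∈ P i j, τ' a ∈ e)).card ≤ n := by
    intro i
    rw [← card_biUnion]
    · refine (card_le_card (biUnion_subset.2 fun j _ => filter_subset _ _)).trans ?_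
      rw [card_range]
    · intro j _ j' _ hjj
      rw [Function.onFun, Finset.disjoint_left]
      intro a ha ha'
      exact hjj ((hP i).2.2.2 (τ' a) j j' (mem_filter.1 ha).2 (mem_filter.1 ha').2)
  have htot : ∑ e ∈ ED, yw n (e.2 - e.1) ≤ k * (n * n) := by
    calc ∑ e ∈ ED, yw n (e.2 - e.1)
        ≤ ∑ e ∈ ED, ∑ i : Fin k, ∑ j : Fin (mm i),
            (if s(τ' e.1, τ' e.2) ∈ P i j then yw n (e.2 - e.1) else 0) := by
          refine sum_le_sum fun e he => ?_
          obtain ⟨i, j, hij⟩ := hin e he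
          have h1 : yw n (e.2 - e.1) ≤ ∑ j : Fin (mm i),
              (if s(τ' e.1, τ' e.2) ∈ P i j then yw n (e.2 - e.1) else 0) := by
            have h2 := single_le_sum (f := fun j : Fin (mm i) =>
              (if s(τ' e.1, τ' e.2) ∈ P i j then yw n (e.2 - e.1) else 0))
              (fun _ _ => Nat.zero_le _) (mem_univ j)
            simp only [hij, if_true] at h2
            exact h2
          exact h1.trans (single_le_sum (f := fun i : Fin k => ∑ j : Fin (mm i),
            (if s(τ' e.1, τ' e.2) ∈ P i j then yw n (e.2 - e.1) else 0))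
            (fun _ _ => Nat.zero_le _) (mem_univ i))
      _ = ∑ i : Fin k, ∑ j : Fin (mm i),
            ∑ e ∈ ED.filter (fun e => s(τ' e.1, τ' e.2) ∈ P i j), yw n (e.2 - e.1) := by
          rw [sum_comm]
          refine sum_congr rfl fun i _ => ?_
          rw [sum_comm]
          refine sum_congr rfl fun j _ => ?_
          exact (sum_filter (s := ED) _ _).symm
      _ ≤ ∑ i : Fin k, ∑ j : Fin (mm i),
            n * ((range n).filter (fun a => ∃ e ∈ P i j, τ' a ∈ e)).card :=
          sum_le_sum fun i _ => sum_le_sum fun j _ => hpage i j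
      _ ≤ ∑ _i : Fin k, n * n := by
          refine sum_le_sum fun i _ => ?_
          rw [← mul_sum]
          exact Nat.mul_le_mul_left _ (hvert i)
      _ = k * (n * n) := by simp
  have h := hLS n
  rw [← hED] at h
  calc n ^ 3 ≤ 3 * (∑ e ∈ ED, yw n (e.2 - e.1)) + n := h
    _ ≤ 3 * (k * (n * n)) + n := by omega
    _ = 3 * k * n ^ 2 + n := by ring

end Pool.Agent.T2H80.UP
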