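import Pool.Agent.T2H80.UP.Stm

/-! # Package LO: the leftover edges -/

set_option autoImplicit false

open Finset

namespace Pool.Agent.T2H80.UP

theorem pLO (hGR : S_GR) : S_LO := by
  classical
  intro V _ _ σ R D hdiag hD
  set T : Finset V := univ.filter (fun v => D < (R.filter fun e => v ∈ e).card) with hT
  -- the number of vertices of large degree
  have hTD : T.card * D ≤ 2 * R.card := by
    have h1 : T.card * D ≤ ∑ v : V, (R.filter fun e => v ∈ e).card := by
      calc T.card * D = ∑ _v ∈ T, D := by rw [sum_const, smul_eq_mul]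
        _ ≤ ∑ v ∈ T, (R.filter fun e => v ∈ e).card :=
            sum_le_sum fun v hv => (mem_filter.1 hv).2.le
        _ ≤ ∑ v : V, (R.filter fun e => v ∈ e).card :=
            sum_le_sum_of_subset_of_nonneg (subset_univ _) fun _ _ _ => Nat.zero_le _
    have h2 : ∑ v : V, (R.filter fun e => v ∈ e).card = ∑ e ∈ R, (univ.filter fun v : V => v ∈ e).card := by
      simp only [card_filter]
      rw [sum_comm]
    have h3 : ∀ e : Sym2 V, (univ.filter fun v : V => v ∈ e).card ≤ 2 := by
      intro e
      induction e using Sym2.inductionOn with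
      | hf x y =>
        have : (univ.filter fun v : V => v ∈ s(x, y)) ⊆ {x, y} := by
          intro v hv
          rw [mem_filter, Sym2.mem_iff] at hv
          rw [mem_insert, mem_singleton]
          exact hv.2
        exact (card_le_card this).trans card_le_two
    rw [h2] at h1
    calc T.card * D ≤ ∑ e ∈ R, (univ.filter fun v : V => v ∈ e).card := h1
      _ ≤ ∑ _e ∈ R, 2 := sum_le_sum fun e _ => h3 e
      _ = 2 * R.card := by rw [sum_const, smul_eq_mul, mul_comm]
  -- the other edges
  set R' : Finset (Sym2 V) := R.filter (fun e => ¬ ∃ v ∈ T, v ∈ e) with hR'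
  obtain ⟨g, hg⟩ := hGR V R' D (by
    intro v
    by_cases hv : v ∈ T
    · have : (R'.filter fun e => v ∈ e) = ∅ := by
        rw [filter_eq_empty_iff]
        intro e he hve
        exact (mem_filter.1 he).2 ⟨v, hv, hve⟩
      rw [this]; simp
    · have h1 : (R'.filter fun e => v ∈ e) ⊆ R.filter fun e => v ∈ e := by
        intro e he
        rw [mem_filter] at he ⊢
        exact ⟨(mem_filter.1 he.1).1, he.2⟩
      refine (card_le_card h1).trans ?_
      by_contra h2
      exact hv (mem_filter.2 ⟨mem_univ _, not_le.1 h2⟩))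
  refine ⟨T.card + (2 * D + 1), fun e => if h : ∃ v, v ∈ T ∧ v ∈ e then
      Fin.castAdd _ (T.equivFin ⟨h.choose, h.choose_spec.1⟩) else Fin.natAdd _ (g e),
    fun i e => if (i : ℕ) < T.card then none else some e, ?_, ?_⟩
  · rw [add_mul]; omega
  · intro i
    by_cases hi : (i : ℕ) < T.card
    · -- a star
      obtain ⟨j, rfl⟩ : ∃ j : Fin T.card, i = Fin.castAdd _ j := ⟨⟨i, hi⟩, rfl⟩
      have hv : ∀ e ∈ {e | e ∈ R ∧ (if h : ∃ v, v ∈ T ∧ v ∈ e then
          Fin.castAdd (2 * D + 1) (T.equivFin ⟨h.choose, h.choose_spec.1⟩) else Fin.natAdd _ (g e)) =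
          Fin.castAdd (2 * D + 1) j}, ((T.equivFin.symm j : V) ∈ e) := by
        intro e he
        obtain ⟨-, h2⟩ := he
        by_cases h : ∃ v, v ∈ T ∧ v ∈ e
        · rw [dif_pos h] at h2
          have h3 := Fin.castAdd_injective _ _ h2
          rw [← h3, Equiv.symm_apply_apply]
          exact h.choose_spec.2
        · rw [dif_neg h] at h2
          have h3 := congrArg Fin.val h2
          rw [Fin.val_natAdd, Fin.val_castAdd] at h3
          have := j.2
          omega
      refine ⟨fun e _ f _ v _ _ => by simp only [hi, if_true], ?_⟩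
      intro a b c d hab hcd _
      have h1 := hv _ hab
      have h2 := hv _ hcd
      rw [Sym2.mem_iff] at h1 h2
      rcases h1 with h1 | h1 <;> rcases h2 with h2 | h2 <;>
        rw [← h1, ← h2] <;> omega
    · have hmem : ∀ e ∈ {e | e ∈ R ∧ (if h : ∃ v, v ∈ T ∧ v ∈ e then
          Fin.castAdd (2 * D + 1) (T.equivFin ⟨h.choose, h.choose_spec.1⟩) else Fin.natAdd _ (g e)) = i},
          e ∈ R' ∧ Fin.natAdd _ (g e) = i := by
        intro e he
        obtain ⟨h1, h2⟩ := he
        by_cases h : ∃ v, v ∈ T ∧ v ∈ e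
        · rw [dif_pos h] at h2
          exfalso
          apply hi
          rw [← h2, Fin.val_castAdd]
          exact Fin.is_lt _
        · rw [dif_neg h] at h2
          exact ⟨mem_filter.2 ⟨h1, fun ⟨v, hv1, hv2⟩ => h ⟨v, hv1, hv2⟩⟩, h2⟩
      refine ⟨?_, ?_⟩
      · intro e he f hf v hve hvf
        simp only [hi, if_false]
        by_contra hne
        have hne' : e ≠ f := fun h => hne (by rw [h])
        obtain ⟨h1, h2⟩ := hmem e he
        obtain ⟨h3, h4⟩ := hmem f hf
        refine hg e h1 f h3 hne' ⟨v, hve, hvf⟩ ?_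
        exact Fin.natAdd_injective _ _ (h2.trans h4.symm)
      · intro a b c d _ _ hlab
        simp only [hi, if_false, Option.some.injEq, Sym2.eq_iff] at hlab
        rcases hlab with ⟨h1, h2⟩ | ⟨h1, h2⟩
        · subst h1; subst h2; omega
        · subst h1; subst h2; omega

end Pool.Agent.T2H80.UP
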