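import Pool.Agent.T2H80.UP.Stm

/-! # Package LS: the sum of the weights over all pairs -/

set_option autoImplicit false

open Finset

namespace Pool.Agent.T2H80.UP

namespace PkgLS

theorem sum_pairs (f : ℕ → ℕ) (h0 : f 0 = 0) (n : ℕ) :
    ∑ b ∈ range n, ∑ a ∈ range b, f (b - a) = ∑ d ∈ range n, (n - d) * f d := by
  induction n with
  | zero => simp
  | succ n ih =>
    rw [Finset.sum_range_succ, ih, Finset.sum_range_succ]
    have h1 : ∑ a ∈ range n, f (n - a) = ∑ d ∈ range n, f (d + 1) := by
      rw [← Finset.sum_range_reflect]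
      apply Finset.sum_congr rfl
      intro x hx
      rw [Finset.mem_range] at hx
      congr 1
      omega
    have h2 : ∑ d ∈ range n, f d + f n = ∑ d ∈ range n, f (d + 1) + f 0 := by
      rw [← Finset.sum_range_succ, Finset.sum_range_succ']
    have h3 : ∑ d ∈ range n, (n + 1 - d) * f d
        = ∑ d ∈ range n, (n - d) * f d + ∑ d ∈ range n, f d := by
      rw [← Finset.sum_add_distrib]
      apply Finset.sum_congr rfl
      intro x hx
      rw [Finset.mem_range] at hx
      have : n + 1 - x = (n - x) + 1 := by omega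
      rw [this]; ring
    rw [h3, h1]
    have h4 : n + 1 - n = 1 := by omega
    rw [h4]
    omega

theorem sum_filter (f : ℕ → ℕ) (n : ℕ) :
    ∑ e ∈ (range n ×ˢ range n).filter (fun e => e.1 < e.2), f (e.2 - e.1)
      = ∑ b ∈ range n, ∑ a ∈ range b, f (b - a) := by
  rw [Finset.sum_filter, Finset.sum_product_right]
  apply Finset.sum_congr rfl
  intro b hb
  rw [Finset.mem_range] at hb
  rw [← Finset.sum_filter]
  apply Finset.sum_congr _ (fun _ _ => rfl)
  ext a
  simp only [Finset.mem_filter, Finset.mem_range]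
  omega

theorem two_sum (n : ℕ) :
    2 * ∑ d ∈ range n, (n - d) * yw n d = n * ∑ d ∈ range (n + 1), yw n d := by
  have h1 : ∑ d ∈ range (n + 1), (n - d) * yw n d = ∑ d ∈ range n, (n - d) * yw n d := by
    rw [Finset.sum_range_succ]; simp
  have h2 : ∑ d ∈ range (n + 1), (n - d) * yw n d = ∑ d ∈ range (n + 1), d * yw n d := by
    rw [← Finset.sum_range_reflect]
    apply Finset.sum_congr rfl
    intro x hx
    rw [Finset.mem_range] at hx
    have e1 : n + 1 - 1 - x = n - x := by omega
    rw [e1]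
    have e2 : n - (n - x) = x := by omega
    rw [e2]
    congr 1
    unfold yw
    rw [e2, min_comm (n - x) x]
  rw [two_mul]
  nth_rewrite 1 [← h1]
  rw [← h1, h2]
  nth_rewrite 1 [← h2]
  rw [← Finset.sum_add_distrib, Finset.mul_sum]
  apply Finset.sum_congr rfl
  intro x hx
  rw [Finset.mem_range] at hx
  rw [← add_mul]
  congr 1
  omega

theorem sum_yw (n : ℕ) : 2 * n ^ 2 ≤ 3 * ∑ d ∈ range (n + 1), yw n d + 2 := by
  rcases Nat.eq_zero_or_pos n with rfl | hn
  · simp
  obtain ⟨q, r, hr, rfl⟩ : ∃ q r : ℕ, r < 3 ∧ n = 3 * q + r :=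
    ⟨n / 3, n % 3, Nat.mod_lt _ (by norm_num), by omega⟩
  obtain ⟨b, hb⟩ : ∃ b, 3 * q + r = 2 * q + 1 + b := ⟨3 * q + r - (2 * q + 1), by omega⟩
  have e1 : 3 * q + r + 1 = (q + 1) + b + (q + 1) := by omega
  have g1 : 2 * ∑ x ∈ range (q + 1), x = q * (q + 1) := by
    have := Finset.sum_range_id_mul_two (q + 1)
    simp only [Nat.add_sub_cancel] at this
    linarith
  have s1 : ∑ x ∈ range (q + 1), yw (3 * q + r) x = 3 * ∑ x ∈ range (q + 1), x := by
    rw [Finset.mul_sum]
    apply Finset.sum_congr rfl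
    intro x hx
    rw [Finset.mem_range] at hx
    unfold yw
    omega
  have s2 : ∑ x ∈ range b, yw (3 * q + r) (q + 1 + x) = b * (3 * q + r) := by
    have : ∑ x ∈ range b, yw (3 * q + r) (q + 1 + x) = ∑ x ∈ range b, (3 * q + r) := by
      apply Finset.sum_congr rfl
      intro x hx
      rw [Finset.mem_range] at hx
      unfold yw
      omega
    rw [this]; simp
  have s3 : ∑ x ∈ range (q + 1), yw (3 * q + r) (q + 1 + b + x)
      = 3 * ∑ x ∈ range (q + 1), x := by
    rw [← Finset.sum_range_reflect (fun x => x), Finset.mul_sum]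
    apply Finset.sum_congr rfl
    intro x hx
    rw [Finset.mem_range] at hx
    unfold yw
    omega
  rw [e1, Finset.sum_range_add, Finset.sum_range_add, s1, s2, s3]
  have hb' : b + q + 1 = 2 * q + r + 0 + 0 := by omega
  interval_cases r
  · obtain ⟨c, rfl⟩ : ∃ c, q = c + 1 := ⟨q - 1, by omega⟩
    have : b = c := by omega
    subst this
    nlinarith [g1]
  · have : b = q := by omega
    subst this
    nlinarith [g1]
  · have : b = q + 1 := by omega
    subst this
    nlinarith [g1]

end PkgLS

open PkgLS in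
theorem pLS : S_LS := by
  intro n
  rw [sum_filter (fun d => yw n d) n, sum_pairs _ (by simp [yw]) n]
  have h1 := two_sum n
  have h2 := sum_yw n
  have h3 : n * (2 * n ^ 2) ≤ n * (3 * ∑ d ∈ range (n + 1), yw n d + 2) :=
    Nat.mul_le_mul_left n h2
  nlinarith

end Pool.Agent.T2H80.UP
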