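import Pool.Agent.T2H80.UP.Stm

/-!
# Package LW: the weight of a page
-/

set_option autoImplicit false

open Finset

namespace Pool.Agent.T2H80.UP

namespace PkgLW

/-- the weight used in the induction -/
def gw (n : ℕ) (e : ℕ × ℕ) : ℕ := min n (3 * (e.2 - e.1))

/-- a non-crossing set of edges on `W` -/
structure NC (W : Finset ℕ) (P : Finset (ℕ × ℕ)) : Prop where
  mem : ∀ e ∈ P, e.1 ∈ W ∧ e.2 ∈ W ∧ e.1 < e.2
  nc : ∀ e ∈ P, ∀ f ∈ P, ¬ (e.1 < f.1 ∧ f.1 < e.2 ∧ e.2 < f.2)

def Good (n k : ℕ) : Prop := ∀ (W : Finset ℕ) (P : Finset (ℕ × ℕ)) (u v : ℕ), W.card = k + 2 →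
  u ∈ W → v ∈ W → (∀ w ∈ W, u ≤ w ∧ w ≤ v) → NC W P → ∑ e ∈ P, gw n e ≤ 3 * (v - u) + n * k

/-- a vertex below no edge -/
theorem exists_cut {W : Finset ℕ} {P : Finset (ℕ × ℕ)} {u v : ℕ} (h3 : 3 ≤ W.card)
    (hb : ∀ w ∈ W, u ≤ w ∧ w ≤ v) (hP : NC W P) :
    ∃ c ∈ W, u < c ∧ c < v ∧ ∀ e ∈ P.erase (u, v), ¬ (e.1 < c ∧ c < e.2) := by
  by_cases h : ((P.erase (u, v)).filter (fun e => e.1 = u)).Nonempty
  · obtain ⟨e, he, hmax⟩ := Finset.exists_max_image _ (fun e : ℕ × ℕ => e.2) h
    obtain ⟨he1, he2⟩ := Finset.mem_filter.mp he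
    obtain ⟨hne, heP⟩ := Finset.mem_erase.mp he1
    obtain ⟨m1, m2, m3⟩ := hP.mem e heP
    have hev : e.2 ≠ v := by
      intro h0
      exact hne (Prod.ext he2 h0)
    have hle := (hb _ m2).2
    refine ⟨e.2, m2, by omega, by omega, ?_⟩
    rintro f hf ⟨h1, h2⟩
    have hfP := (Finset.mem_erase.mp hf).2
    obtain ⟨k1, k2, k3⟩ := hP.mem f hfP
    have hu := (hb _ k1).1
    rcases hu.eq_or_lt with h4 | h4
    · have := hmax f (Finset.mem_filter.mpr ⟨hf, h4.symm⟩)
      omega
    · exact hP.nc e heP f hfP ⟨by omega, h1, h2⟩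
  · have hne : (W.filter (fun w => u < w ∧ w < v)).Nonempty := by
      by_contra h0
      rw [Finset.not_nonempty_iff_eq_empty] at h0
      have hsub : W ⊆ {u, v} := by
        intro w hw
        obtain ⟨h1, h2⟩ := hb w hw
        by_contra h3
        simp only [Finset.mem_insert, Finset.mem_singleton, not_or] at h3
        have : w ∈ W.filter (fun w => u < w ∧ w < v) :=
          Finset.mem_filter.mpr ⟨hw, by omega, by omega⟩
        rw [h0] at this
        exact absurd this (Finset.notMem_empty w)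
      have := Finset.card_le_card hsub
      have := Finset.card_le_two (a := u) (b := v)
      omega
    obtain ⟨c, hc, hmin⟩ := Finset.exists_min_image _ (fun w : ℕ => w) hne
    obtain ⟨c1, c2, c3⟩ := Finset.mem_filter.mp hc
    refine ⟨c, c1, c2, c3, ?_⟩
    rintro f hf ⟨h1, h2⟩
    have hfP := (Finset.mem_erase.mp hf).2
    obtain ⟨k1, k2, k3⟩ := hP.mem f hfP
    have hu := (hb _ k1).1
    rcases hu.eq_or_lt with h4 | h4
    · exact h ⟨f, Finset.mem_filter.mpr ⟨hf, h4.symm⟩⟩
    · have := hmin f.1 (Finset.mem_filter.mpr ⟨k1, h4, by omega⟩)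
      omega

/-- the splitting -/
theorem split {n k : ℕ} (ih : ∀ j ≤ k, Good n j) {W : Finset ℕ} {P : Finset (ℕ × ℕ)} {u v : ℕ}
    (hW : W.card = k + 3) (hu : u ∈ W) (hv : v ∈ W) (hb : ∀ w ∈ W, u ≤ w ∧ w ≤ v) (hP : NC W P) :
    ∑ e ∈ P.erase (u, v), gw n e ≤ 3 * (v - u) + n * k := by
  obtain ⟨c, hc, huc, hcv, hcut⟩ := exists_cut (by omega) hb hP
  set W1 := W.filter (fun w => w ≤ c)
  set W2 := W.filter (fun w => c ≤ w)
  set P1 := (P.erase (u, v)).filter (fun e => e.2 ≤ c)
  set P2 := (P.erase (u, v)).filter (fun e => ¬ e.2 ≤ c)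
  have hcard : W1.card + W2.card = W.card + 1 := by
    rw [← Finset.card_union_add_card_inter]
    have e1 : W1 ∪ W2 = W := by
      ext w
      simp only [W1, W2, Finset.mem_union, Finset.mem_filter]
      constructor
      · rintro (h | h) <;> exact h.1
      · intro h
        rcases le_total w c with h1 | h1
        · exact Or.inl ⟨h, h1⟩
        · exact Or.inr ⟨h, h1⟩
    have e2 : W1 ∩ W2 = {c} := by
      ext w
      simp only [W1, W2, Finset.mem_inter, Finset.mem_filter, Finset.mem_singleton]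
      constructor
      · rintro ⟨h1, h2⟩
        omega
      · rintro rfl
        exact ⟨⟨hc, le_rfl⟩, ⟨hc, le_rfl⟩⟩
    rw [e1, e2, Finset.card_singleton]
  have h21 : 2 ≤ W1.card := by
    have : ({u, c} : Finset ℕ) ⊆ W1 := by
      intro w hw
      simp only [Finset.mem_insert, Finset.mem_singleton] at hw
      rcases hw with rfl | rfl
      · exact Finset.mem_filter.mpr ⟨hu, huc.le⟩
      · exact Finset.mem_filter.mpr ⟨hc, le_rfl⟩
    have h2 := Finset.card_le_card this
    rwa [Finset.card_pair huc.ne] at h2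
  have h22 : 2 ≤ W2.card := by
    have : ({c, v} : Finset ℕ) ⊆ W2 := by
      intro w hw
      simp only [Finset.mem_insert, Finset.mem_singleton] at hw
      rcases hw with rfl | rfl
      · exact Finset.mem_filter.mpr ⟨hc, le_rfl⟩
      · exact Finset.mem_filter.mpr ⟨hv, hcv.le⟩
    have h2 := Finset.card_le_card this
    rwa [Finset.card_pair hcv.ne] at h2
  obtain ⟨i, hi⟩ : ∃ i, W1.card = i + 2 := ⟨W1.card - 2, by omega⟩
  obtain ⟨j, hj⟩ : ∃ j, W2.card = j + 2 := ⟨W2.card - 2, by omega⟩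
  have hij : i + j = k := by omega
  have s1 := ih i (by omega) W1 P1 u c hi (Finset.mem_filter.mpr ⟨hu, huc.le⟩)
    (Finset.mem_filter.mpr ⟨hc, le_rfl⟩) (by
      intro w hw
      obtain ⟨h1, h2⟩ := Finset.mem_filter.mp hw
      exact ⟨(hb w h1).1, h2⟩) (by
      constructor
      · intro e he
        obtain ⟨h1, h2⟩ := Finset.mem_filter.mp he
        obtain ⟨m1, m2, m3⟩ := hP.mem e (Finset.mem_erase.mp h1).2
        exact ⟨Finset.mem_filter.mpr ⟨m1, by omega⟩, Finset.mem_filter.mpr ⟨m2, h2⟩, m3⟩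
      · intro e he f hf
        exact hP.nc e (Finset.mem_erase.mp (Finset.mem_filter.mp he).1).2 f
          (Finset.mem_erase.mp (Finset.mem_filter.mp hf).1).2)
  have s2 := ih j (by omega) W2 P2 c v hj (Finset.mem_filter.mpr ⟨hc, le_rfl⟩)
    (Finset.mem_filter.mpr ⟨hv, hcv.le⟩) (by
      intro w hw
      obtain ⟨h1, h2⟩ := Finset.mem_filter.mp hw
      exact ⟨h2, (hb w h1).2⟩) (by
      constructor
      · intro e he
        obtain ⟨h1, h2⟩ := Finset.mem_filter.mp he
        obtain ⟨m1, m2, m3⟩ := hP.mem e (Finset.mem_erase.mp h1).2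
        have := hcut e h1
        exact ⟨Finset.mem_filter.mpr ⟨m1, by omega⟩, Finset.mem_filter.mpr ⟨m2, by omega⟩, m3⟩
      · intro e he f hf
        exact hP.nc e (Finset.mem_erase.mp (Finset.mem_filter.mp he).1).2 f
          (Finset.mem_erase.mp (Finset.mem_filter.mp hf).1).2)
  have hsum : ∑ e ∈ P.erase (u, v), gw n e = ∑ e ∈ P1, gw n e + ∑ e ∈ P2, gw n e :=
    (Finset.sum_filter_add_sum_filter_not _ _ _).symm
  have e3 : n * i + n * j = n * k := by rw [← hij]; ring
  have e4 : 3 * (c - u) + 3 * (v - c) = 3 * (v - u) := by omega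
  omega

theorem erase_le {n : ℕ} (P : Finset (ℕ × ℕ)) (g : ℕ × ℕ → ℕ) (e : ℕ × ℕ) (hn : g e ≤ n) :
    ∑ f ∈ P, g f ≤ n + ∑ f ∈ P.erase e, g f := by
  by_cases h : e ∈ P
  · rw [← Finset.add_sum_erase P g h]
    omega
  · rw [Finset.erase_eq_of_notMem h]
    omega

theorem two_mem {W : Finset ℕ} {P : Finset (ℕ × ℕ)} {u v : ℕ} (hW : W.card = 2)
    (hu : u ∈ W) (hv : v ∈ W) (hb : ∀ w ∈ W, u ≤ w ∧ w ≤ v) (hP : NC W P) : P ⊆ {(u, v)} := by
  intro e he
  obtain ⟨m1, m2, m3⟩ := hP.mem e he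
  have h1 : ({e.1, e.2} : Finset ℕ) ⊆ W := by
    intro w hw
    simp only [Finset.mem_insert, Finset.mem_singleton] at hw
    rcases hw with rfl | rfl
    · exact m1
    · exact m2
  have h2 : ({e.1, e.2} : Finset ℕ) = W :=
    Finset.eq_of_subset_of_card_le h1 (by rw [Finset.card_pair m3.ne, hW])
  rw [← h2] at hu hv
  simp only [Finset.mem_insert, Finset.mem_singleton] at hu hv
  have h3 := hb _ m1
  have h4 := hb _ m2
  rw [Finset.mem_singleton]
  refine Prod.ext ?_ ?_
  · show e.1 = u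
    omega
  · show e.2 = v
    omega

theorem good (n : ℕ) : ∀ k, Good n k := by
  intro k
  induction k using Nat.strong_induction_on with
  | _ k ih =>
    intro W P u v hW hu hv hb hP
    rcases Nat.eq_zero_or_pos k with rfl | hk
    · have hsub := two_mem (by simpa using hW) hu hv hb hP
      refine (Finset.sum_le_sum_of_subset hsub).trans ?_
      rw [Finset.sum_singleton]
      unfold gw
      simp
    · obtain ⟨k, rfl⟩ : ∃ j, k = j + 1 := ⟨k - 1, by omega⟩
      have h1 := split (n := n) (k := k) (fun j hj => ih j (by omega)) (by omega) hu hv hb hP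
      have h2 := erase_le (n := n) P (gw n) (u, v) (min_le_left _ _)
      have h3 : n * (k + 1) = n * k + n := by ring
      omega

end PkgLW

open PkgLW in
theorem pLW : S_LW := by
  intro n W P hWn hP hnc
  have hNC : NC W P := ⟨hP, hnc⟩
  have hle : ∀ e ∈ P, yw n (e.2 - e.1) ≤ gw n e := by
    intro e _
    unfold yw gw
    exact min_le_min le_rfl (Nat.mul_le_mul_left 3 (min_le_left _ _))
  rcases P.eq_empty_or_nonempty with rfl | hPn
  · simp
  obtain ⟨e0, he0⟩ := hPn
  obtain ⟨m1, m2, m3⟩ := hP e0 he0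
  have hWne : W.Nonempty := ⟨_, m1⟩
  set u := W.min' hWne with hu
  set v := W.max' hWne with hv
  have huW : u ∈ W := W.min'_mem hWne
  have hvW : v ∈ W := W.max'_mem hWne
  have hb : ∀ w ∈ W, u ≤ w ∧ w ≤ v := fun w hw => ⟨W.min'_le w hw, W.le_max' w hw⟩
  have h2 : 2 ≤ W.card := by
    have h1 : ({e0.1, e0.2} : Finset ℕ) ⊆ W := by
      intro w hw
      simp only [Finset.mem_insert, Finset.mem_singleton] at hw
      rcases hw with rfl | rfl
      · exact m1
      · exact m2
    have h2 := Finset.card_le_card h1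
    rwa [Finset.card_pair m3.ne] at h2
  have huv : u < v := by
    have a1 := hb _ m1
    have a2 := hb _ m2
    omega
  have hvn := hWn v hvW
  rcases h2.eq_or_lt with h3 | h3
  · have hsub := two_mem h3.symm huW hvW hb hNC
    refine (Finset.sum_le_sum_of_subset hsub).trans ?_
    rw [Finset.sum_singleton, ← h3]
    have : yw n (v - u) ≤ n := min_le_left _ _
    show yw n (v - u) ≤ n * 2
    omega
  · obtain ⟨k, hk⟩ : ∃ k, W.card = k + 3 := ⟨W.card - 3, by omega⟩
    have s1 := split (n := n) (k := k) (fun j _ => good n j) hk huW hvW hb hNC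
    have s2 : ∑ e ∈ P.erase (u, v), yw n (e.2 - e.1) ≤ ∑ e ∈ P.erase (u, v), gw n e :=
      Finset.sum_le_sum fun e he => hle e (Finset.mem_erase.mp he).2
    have s3 := erase_le (n := 3 * (n - (v - u))) P (fun e => yw n (e.2 - e.1)) (u, v) (by
      show yw n (v - u) ≤ 3 * (n - (v - u))
      unfold yw
      exact (min_le_right _ _).trans (Nat.mul_le_mul_left 3 (min_le_right _ _)))
    rw [hk]
    have e1 : n * (k + 3) = n * k + 3 * n := by ring
    omega

end Pool.Agent.T2H80.UP
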