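import Pool.Agent.T2H80.UP.Stm

set_option autoImplicit false

/-!
# MON (helper92): the union page number is monotone
-/

open Finset

namespace Pool.Agent.T2H80.UP

namespace PkgMON

variable {V W : Type}

lemma page_pre {f : V → W} {σ : W → ℕ} {P : Set (Sym2 W)} (h : IsPage σ P) :
    IsPage (σ ∘ f) (Sym2.map f ⁻¹' P) := by
  intro a b c d hab hcd
  exact h (f a) (f b) (f c) (f d) (by simpa using hab) (by simpa using hcd)

lemma upage_pre {f : V → W} {σ : W → ℕ} {U : Set (Sym2 W)} (h : IsUnionPage σ U) :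
    IsUnionPage (σ ∘ f) (Sym2.map f ⁻¹' U) := by
  obtain ⟨m, P, h1, h2, h3, h4⟩ := h
  refine ⟨m, fun i => Sym2.map f ⁻¹' P i, fun i => page_pre (h1 i), ?_, ?_, ?_⟩
  · rw [← h2, Set.preimage_iUnion]
  · intro i j hij
    exact Disjoint.preimage _ (h3 i j hij)
  · intro v i j hi hj
    obtain ⟨e, he, hve⟩ := hi
    obtain ⟨e', he', hve'⟩ := hj
    exact h4 (f v) i j ⟨Sym2.map f e, he, Sym2.mem_map.2 ⟨v, hve, rfl⟩⟩
      ⟨Sym2.map f e', he', Sym2.mem_map.2 ⟨v, hve', rfl⟩⟩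

end PkgMON

open PkgMON in
theorem pMON : S_MON := by
  intro V W f hf k ⟨σ, hσ, U, h1, h2, h3⟩
  refine ⟨σ ∘ f, hσ.comp hf, fun i => Sym2.map f ⁻¹' U i, fun i => upage_pre (h1 i), ?_, ?_⟩
  · rw [← Set.preimage_iUnion, h2]
    ext e
    induction e using Sym2.ind with
    | _ a b => simp [hf.eq_iff]
  · intro i j hij
    exact Disjoint.preimage _ (h3 i j hij)

end Pool.Agent.T2H80.UP
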