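import Pool.Agent.T2H80.UP.Stm
import Pool.Agent.TH437.SP.Nib

/-!
# NB: application of the weighted nibble theorem
-/

set_option autoImplicit false

open Finset

namespace Pool.Agent.T2H80.UP

namespace PkgNB

variable {K m : ℕ}

/-- number of functions with two prescribed values -/
lemma card_two {n m : ℕ} (p q : Fin n) (hpq : p ≠ q) (a b : Fin m) :
    (univ.filter fun θ : Fin n → Fin m => θ p = a ∧ θ q = b).card = m ^ (n - 2) := by
  classical
  have h : (univ.filter fun θ : Fin n → Fin m => θ p = a ∧ θ q = b) =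
      Fintype.piFinset (fun i : Fin n => if i = p then {a} else if i = q then {b} else univ) := by
    ext θ
    simp only [mem_filter, mem_univ, true_and, Fintype.mem_piFinset]
    constructor
    · rintro ⟨h1, h2⟩ i
      by_cases hi : i = p
      · subst hi; simp [h1]
      · by_cases hi' : i = q
        · subst hi'; simp [hi, h2]
        · simp [hi, hi']
    · intro h
      have h1 := h p
      have h2 := h q
      rw [if_pos rfl, mem_singleton] at h1
      rw [if_neg (Ne.symm hpq), if_pos rfl, mem_singleton] at h2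
      exact ⟨h1, h2⟩
  rw [h, Fintype.card_piFinset]
  have h3 : ∀ i : Fin n, (if i = p then ({a} : Finset (Fin m)) else if i = q then {b} else univ).card
      = if i ∈ ({p, q} : Finset (Fin n)) then 1 else m := by
    intro i
    by_cases hi : i = p
    · subst hi; simp
    · by_cases hi' : i = q
      · subst hi'; simp [hi]
      · simp [hi, hi']
  rw [Finset.prod_congr rfl (fun i _ => h3 i)]
  rw [Finset.prod_ite, Finset.prod_const_one, one_mul, Finset.prod_const]
  congr 1
  have h4 : (univ.filter fun x : Fin n => ¬ x ∈ ({p, q} : Finset (Fin n))) = ({p, q} : Finset (Fin n))ᶜ := by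
    ext x; simp
  rw [h4, Finset.card_compl, Finset.card_pair hpq, Fintype.card_fin]

lemma vset_card_le (x : Hx K m) : (vset x).card ≤ 6 := by
  unfold vset
  exact (Finset.card_image_le).trans (by simp)

lemma eset_card_le (x : Hx K m) : (eset x).card ≤ 9 := by
  unfold eset
  exact (Finset.card_image_le).trans (by decide)

lemma E9_ne {p : Fin 6 × Fin 6} (hp : p ∈ E9) : p.1 ≠ p.2 := by
  revert p; decide

/-- the ends of an edge of a hexagon are different vertices of the hexagon -/
lemma ends (hHX : S_HX) (x : Hx K m) {a b : Vx K m} (h : s(a, b) ∈ eset x) :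
    a ≠ b ∧ a ∈ vset x ∧ b ∈ vset x := by
  unfold eset at h
  rw [mem_image] at h
  obtain ⟨p, hp, h⟩ := h
  have hne : vert x p.1 ≠ vert x p.2 := fun h' => E9_ne hp ((hHX K m x).1 h')
  have m1 : ∀ i, vert x i ∈ vset x := fun i => mem_image_of_mem _ (mem_univ i)
  rw [Sym2.eq_iff] at h
  rcases h with ⟨h1, h2⟩ | ⟨h1, h2⟩
  · rw [← h1, ← h2]; exact ⟨hne, m1 _, m1 _⟩
  · rw [← h1, ← h2]; exact ⟨hne.symm, m1 _, m1 _⟩

/-- at most `m⁴` hexagons with a given edge -/
lemma card_edge (hDZ : S_DZ) (hHX : S_HX) (e : Sym2 (Vx K m)) :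
    (univ.filter fun x : Hx K m => e ∈ eset x).card ≤ m ^ 4 := by
  classical
  by_cases hne : (univ.filter fun x : Hx K m => e ∈ eset x).Nonempty
  swap
  · rw [Finset.not_nonempty_iff_eq_empty] at hne
    rw [hne]; simp
  obtain ⟨x₀, hx₀⟩ := hne
  rw [mem_filter] at hx₀
  have hx₀' := hx₀.2
  unfold eset at hx₀'
  rw [mem_image] at hx₀'
  obtain ⟨p, hp, hpe⟩ := hx₀'
  have hpne : p.1 ≠ p.2 := E9_ne hp
  have key : ∀ x : Hx K m, e ∈ eset x → x.1 = x₀.1 ∧ x.2 p.1 = x₀.2 p.1 ∧ x.2 p.2 = x₀.2 p.2 := by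
    intro x hx
    unfold eset at hx
    rw [mem_image] at hx
    obtain ⟨q, hq, hqe⟩ := hx
    have h1 : s(vert x q.1, vert x q.2) = s(vert x₀ p.1, vert x₀ p.2) := by rw [hqe, hpe]
    have h2 : s((vert x q.1).1, (vert x q.2).1) = s((vert x₀ p.1).1, (vert x₀ p.2).1) := by
      have := congrArg (Sym2.map Prod.fst) h1
      simpa only [Sym2.map_mk] using this
    have h3 := hDZ K x.1.1 x₀.1.1 x.1.2 x₀.1.2 q hq p hp (by simpa only [vert] using h2)
    obtain ⟨hj, hqp, ht⟩ := h3
    subst hqp
    have hx1 : x.1 = x₀.1 := Prod.ext hj ht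
    refine ⟨hx1, ?_⟩
    rw [Sym2.eq_iff] at h1
    rcases h1 with ⟨h1, h1'⟩ | ⟨h1, h1'⟩
    · exact ⟨congrArg Prod.snd h1, congrArg Prod.snd h1'⟩
    · exfalso
      -- the first coordinates
      have h4 : (vert x q.1).1 = (vert x₀ q.2).1 := congrArg Prod.fst h1
      have h5 : (vert x₀ q.1).1 = (vert x₀ q.2).1 := by
        rw [← h4]; simp only [vert, hx1]
      -- a hexagon with constant positions
      let y : Hx K m := (x₀.1, fun _ => x₀.2 0)
      have h6 : vert y q.1 = vert y q.2 := by
        simp only [vert, y] at h5 ⊢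
        rw [h5]
      exact hpne ((hHX K m y).1 h6)
  have hsub : (univ.filter fun x : Hx K m => e ∈ eset x) ⊆
      (univ.filter fun θ : Fin 6 → Fin m => θ p.1 = x₀.2 p.1 ∧ θ p.2 = x₀.2 p.2).image
        (fun θ => (x₀.1, θ)) := by
    intro x hx
    rw [mem_filter] at hx
    rw [mem_image]
    obtain ⟨h1, h2, h3⟩ := key x hx.2
    exact ⟨x.2, by rw [mem_filter]; exact ⟨mem_univ _, h2, h3⟩, by rw [← h1]⟩
  calc (univ.filter fun x : Hx K m => e ∈ eset x).card ≤ _ := Finset.card_le_card hsub
    _ ≤ _ := Finset.card_image_le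
    _ = m ^ 4 := card_two _ _ hpne _ _

end PkgNB

open PkgNB in
theorem pNB (hDZ : S_DZ) (hHX : S_HX) (hCN : S_CN) : S_NB := by
  classical
  intro K θ hK hθ
  obtain ⟨κ, hκ, hnib⟩ := Pool.Agent.TH437.SP.nibble_T 15 θ hθ
  obtain ⟨m₀, hm₀⟩ := exists_nat_ge (216 * K / κ)
  refine ⟨m₀, fun m hm hm1 => ?_⟩
  have hmR : (0 : ℝ) < m := by exact_mod_cast hm1
  have hKR : (1 : ℝ) ≤ K := by exact_mod_cast hK
  have hK0 : (0 : ℝ) < K := by linarith
  -- the final bound
  have hfin : 216 * (K : ℝ) / m ≤ κ := by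
    rw [div_le_iff₀ hmR]
    have h1 : 216 * (K : ℝ) / κ ≤ m := hm₀.trans (by exact_mod_cast hm)
    rw [div_le_iff₀ hκ] at h1
    linarith
  let A : Hx K m × Fin (6 * K * m) → Finset ((Vx K m × Fin (6 * K * m)) ⊕ Sym2 (Vx K m)) :=
    fun x => ((vset x.1).image fun v => Sum.inl (v, x.2)) ∪ (eset x.1).image Sum.inr
  have memL : ∀ (x : Hx K m × Fin (6 * K * m)) (v : Vx K m) (c : Fin (6 * K * m)),
      Sum.inl (v, c) ∈ A x ↔ v ∈ vset x.1 ∧ x.2 = c := by
    intro x v c
    simp only [A, mem_union, mem_image, Sum.inl.injEq, Prod.mk.injEq, reduceCtorEq, and_false,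
      exists_false, or_false]
    constructor
    · rintro ⟨w, hw, h1, h2⟩
      rw [← h1]; exact ⟨hw, h2⟩
    · rintro ⟨h1, h2⟩
      exact ⟨v, h1, rfl, h2⟩
  have memR : ∀ (x : Hx K m × Fin (6 * K * m)) (e : Sym2 (Vx K m)),
      Sum.inr e ∈ A x ↔ e ∈ eset x.1 := by
    intro x e
    simp only [A, mem_union, mem_image, reduceCtorEq, and_false, exists_false, false_or,
      Sum.inr.injEq, exists_eq_right]
  have hkm : (0 : ℝ) < ((6 * K * m : ℕ) : ℝ) * (m : ℝ) ^ 4 := by
    push_cast; positivity
  set wt : ℝ := 1 / (((6 * K * m : ℕ) : ℝ) * (m : ℝ) ^ 4) with hwt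
  have hwt0 : 0 ≤ wt := by rw [hwt]; positivity
  -- number of hexagons containing T
  have hCN' : ∀ T : Finset (Vx K m), T.Nonempty →
      ((univ.filter fun x : Hx K m => T ⊆ vset x).card : ℝ) * (m : ℝ) ^ T.card
        ≤ 6 ^ T.card * K * (m : ℝ) ^ 6 := by
    intro T hT
    exact_mod_cast hCN K m T hT
  -- sums over filters which only depend on the hexagon
  have sumfst : ∀ (P : Hx K m → Prop) [DecidablePred P] (Q : Hx K m × Fin (6 * K * m) → Prop)
      (_ : DecidablePred Q), (∀ x, Q x → P x.1) →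
      ∑ x ∈ univ.filter Q, wt ≤ ((univ.filter P).card : ℝ) * ((6 * K * m : ℕ) : ℝ) * wt := by
    intro P dP Q dQ hPQ
    rw [Finset.sum_const, nsmul_eq_mul]
    refine mul_le_mul_of_nonneg_right ?_ hwt0
    have h1 : (univ.filter Q) ⊆ (univ.filter P) ×ˢ (univ : Finset (Fin (6 * K * m))) := by
      intro x hx
      rw [mem_filter] at hx
      rw [mem_product, mem_filter]
      exact ⟨⟨mem_univ _, hPQ x hx.2⟩, mem_univ _⟩
    have h2 := Finset.card_le_card h1
    rw [Finset.card_product, Finset.card_univ, Fintype.card_fin] at h2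
    exact_mod_cast h2
  -- sums over filters which fix the colour
  have sumcol : ∀ (P : Hx K m → Prop) [DecidablePred P] (Q : Hx K m × Fin (6 * K * m) → Prop)
      (_ : DecidablePred Q) (c : Fin (6 * K * m)),
      (∀ x, Q x → P x.1 ∧ x.2 = c) →
      ∑ x ∈ univ.filter Q, wt ≤ ((univ.filter P).card : ℝ) * wt := by
    intro P dP Q dQ c hPQ
    rw [Finset.sum_const, nsmul_eq_mul]
    refine mul_le_mul_of_nonneg_right ?_ hwt0
    have h1 : (univ.filter Q) ⊆ (univ.filter P).image (fun x => (x, c)) := by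
      intro x hx
      rw [mem_filter] at hx
      rw [mem_image]
      obtain ⟨h2, h3⟩ := hPQ x hx.2
      exact ⟨x.1, by rw [mem_filter]; exact ⟨mem_univ _, h2⟩, by rw [← h3]⟩
    have h2 := (Finset.card_le_card h1).trans Finset.card_image_le
    exact_mod_cast h2
  -- two vertices
  have two : ∀ u v : Vx K m, u ≠ v →
      ((univ.filter fun x : Hx K m => u ∈ vset x ∧ v ∈ vset x).card : ℝ) * wt ≤ κ := by
    intro u v huv
    have h1 := hCN' {u, v} ⟨u, by simp⟩
    rw [Finset.card_pair huv] at h1
    have h2 : (univ.filter fun x : Hx K m => ({u, v} : Finset (Vx K m)) ⊆ vset x) =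
        univ.filter fun x : Hx K m => u ∈ vset x ∧ v ∈ vset x := by
      ext x; simp [Finset.insert_subset_iff]
    rw [h2] at h1
    set N : ℝ := ((univ.filter fun x : Hx K m => u ∈ vset x ∧ v ∈ vset x).card : ℝ)
    have h3 : N ≤ 36 * K * (m : ℝ) ^ 4 := by
      have h4 : N * (m : ℝ) ^ 2 ≤ (36 * K * (m : ℝ) ^ 4) * (m : ℝ) ^ 2 := by
        calc N * (m : ℝ) ^ 2 ≤ _ := h1
          _ = _ := by ring
      exact le_of_mul_le_mul_right h4 (by positivity)
    refine le_trans ?_ hfin
    rw [hwt, mul_one_div, div_le_div_iff₀ hkm hmR]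
    push_cast
    have h5 : N * m ≤ 36 * K * (m : ℝ) ^ 4 * m := mul_le_mul_of_nonneg_right h3 hmR.le
    have h6 : (0 : ℝ) ≤ (m : ℝ) ^ 5 := by positivity
    have h7 : (36 : ℝ) * K ≤ 216 * K * (6 * K) := by nlinarith
    have h8 := mul_le_mul_of_nonneg_right h7 h6
    nlinarith [h5, h8]
  -- three vertices
  have three : ∀ T : Finset (Vx K m), T.card = 3 → ∀ (P : Hx K m → Prop) (_ : DecidablePred P),
      (∀ x, P x → T ⊆ vset x) →
      ((univ.filter P).card : ℝ) * ((6 * K * m : ℕ) : ℝ) * wt ≤ κ := by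
    intro T hT P dP hP
    have h1 := hCN' T (by rw [← Finset.card_pos, hT]; norm_num)
    rw [hT] at h1
    have h2 : (univ.filter P).card ≤ (univ.filter fun x : Hx K m => T ⊆ vset x).card := by
      apply Finset.card_le_card
      intro x hx
      rw [mem_filter] at hx ⊢
      exact ⟨hx.1, hP x hx.2⟩
    have h2' : ((univ.filter P).card : ℝ) ≤ ((univ.filter fun x : Hx K m => T ⊆ vset x).card : ℝ) := by
      exact_mod_cast h2
    set N : ℝ := ((univ.filter fun x : Hx K m => T ⊆ vset x).card : ℝ)
    have h3 : N ≤ 216 * K * (m : ℝ) ^ 3 := by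
      have h4 : N * (m : ℝ) ^ 3 ≤ (216 * K * (m : ℝ) ^ 3) * (m : ℝ) ^ 3 := by
        calc N * (m : ℝ) ^ 3 ≤ _ := h1
          _ = _ := by ring
      exact le_of_mul_le_mul_right h4 (by positivity)
    have h5 : ((univ.filter P).card : ℝ) ≤ 216 * K * (m : ℝ) ^ 3 := h2'.trans h3
    refine le_trans ?_ hfin
    rw [hwt, mul_one_div, div_le_div_iff₀ hkm hmR]
    have h6 : (0 : ℝ) ≤ ((6 * K * m : ℕ) : ℝ) * m := by positivity
    have h7 := mul_le_mul_of_nonneg_right h5 h6
    calc ((univ.filter P).card : ℝ) * ((6 * K * m : ℕ) : ℝ) * m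
        = ((univ.filter P).card : ℝ) * (((6 * K * m : ℕ) : ℝ) * m) := by ring
      _ ≤ _ := h7
      _ = _ := by ring
  obtain ⟨M, hM1, -, hM2⟩ := hnib (Hx K m × Fin (6 * K * m))
    ((Vx K m × Fin (6 * K * m)) ⊕ Sym2 (Vx K m)) A (fun _ => wt) (fun _ => hwt0)
    (by
      intro x
      exact ⟨Sum.inl (vert x.1 0, x.2), (memL _ _ _).2 ⟨mem_image_of_mem _ (mem_univ _), rfl⟩⟩)
    (by
      intro x
      refine (Finset.card_union_le _ _).trans ?_
      have h1 : ((vset x.1).image fun v => (Sum.inl (v, x.2) :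
          (Vx K m × Fin (6 * K * m)) ⊕ Sym2 (Vx K m))).card ≤ 6 :=
        Finset.card_image_le.trans (vset_card_le x.1)
      have h2 : ((eset x.1).image (Sum.inr : Sym2 (Vx K m) →
          (Vx K m × Fin (6 * K * m)) ⊕ Sym2 (Vx K m))).card ≤ 9 :=
        Finset.card_image_le.trans (eset_card_le x.1)
      omega)
    (by
      -- loads
      rintro (⟨v, c⟩ | e)
      · refine (sumcol (fun x => v ∈ vset x) _ _ c (fun x hx => (memL x v c).1 hx)).trans ?_
        have h1 := hCN' {v} ⟨v, by simp⟩
        rw [Finset.card_singleton] at h1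
        have h2 : (univ.filter fun x : Hx K m => ({v} : Finset (Vx K m)) ⊆ vset x) =
            univ.filter fun x : Hx K m => v ∈ vset x := by
          ext x; simp
        rw [h2] at h1
        set N : ℝ := ((univ.filter fun x : Hx K m => v ∈ vset x).card : ℝ)
        have h3 : N ≤ 6 * K * (m : ℝ) ^ 5 := by
          have h4 : N * (m : ℝ) ≤ (6 * K * (m : ℝ) ^ 5) * (m : ℝ) := by
            calc N * (m : ℝ) = N * (m : ℝ) ^ 1 := by ring
              _ ≤ _ := h1
              _ = _ := by ring
          exact le_of_mul_le_mul_right h4 hmR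
        rw [hwt, mul_one_div, div_le_one hkm]
        push_cast
        calc N ≤ _ := h3
          _ = _ := by ring
      · refine (sumfst (fun x => e ∈ eset x) _ _ (fun x hx => (memR x e).1 hx)).trans ?_
        have h1 : ((univ.filter fun x : Hx K m => e ∈ eset x).card : ℝ) ≤ (m : ℝ) ^ 4 := by
          exact_mod_cast card_edge hDZ hHX e
        rw [hwt, mul_one_div, div_le_one hkm, mul_comm]
        exact mul_le_mul_of_nonneg_left h1 (by positivity))
    (by
      -- codegrees
      have LR : ∀ (u : Vx K m) (c : Fin (6 * K * m)) (e : Sym2 (Vx K m)),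
          ∑ x ∈ univ.filter (fun x => Sum.inl (u, c) ∈ A x ∧ Sum.inr e ∈ A x), wt ≤ κ := by
        intro u c e
        induction e using Sym2.ind with
        | _ a b =>
          by_cases hab : a = b
          · have h0 : univ.filter (fun x => Sum.inl (u, c) ∈ A x ∧ Sum.inr s(a, b) ∈ A x) = ∅ := by
              rw [Finset.filter_eq_empty_iff]
              rintro x - ⟨-, hx⟩
              exact (ends hHX x.1 ((memR x _).1 hx)).1 hab
            rw [h0, Finset.sum_empty]; exact hκ.le
          · refine (sumcol (fun x => a ∈ vset x ∧ b ∈ vset x) _ _ c (fun x hx => ?_)).trans (two a b hab)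
            exact ⟨(ends hHX x.1 ((memR x _).1 hx.2)).2, ((memL x u c).1 hx.1).2⟩
      rintro (⟨u, c⟩ | e) (⟨v, c'⟩ | f) huv
      · by_cases huv' : u = v
        · subst huv'
          have h0 : univ.filter (fun x => Sum.inl (u, c) ∈ A x ∧ Sum.inl (u, c') ∈ A x) = ∅ := by
            rw [Finset.filter_eq_empty_iff]
            rintro x - ⟨hx, hx'⟩
            apply huv
            rw [← ((memL x u c).1 hx).2, ← ((memL x u c').1 hx').2]
          rw [h0, Finset.sum_empty]; exact hκ.le
        · refine (sumcol (fun x => u ∈ vset x ∧ v ∈ vset x) _ _ c (fun x hx => ?_)).trans (two u v huv')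
          exact ⟨⟨((memL x u c).1 hx.1).1, ((memL x v c').1 hx.2).1⟩, ((memL x u c).1 hx.1).2⟩
      · exact LR u c f
      · have h0 : univ.filter (fun x => Sum.inr e ∈ A x ∧ Sum.inl (v, c') ∈ A x) =
            univ.filter (fun x => Sum.inl (v, c') ∈ A x ∧ Sum.inr e ∈ A x) := by
          ext x; rw [mem_filter, mem_filter]; exact and_congr_right fun _ => and_comm
        rw [h0]; exact LR v c' e
      · have hef : e ≠ f := fun h => huv (by rw [h])
        induction e using Sym2.ind with
        | _ a b =>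
          induction f using Sym2.ind with
          | _ c d =>
            by_cases hex : (univ.filter fun x : Hx K m => s(a, b) ∈ eset x ∧ s(c, d) ∈ eset x).Nonempty
            swap
            · rw [Finset.not_nonempty_iff_eq_empty] at hex
              refine (sumfst (fun x => s(a, b) ∈ eset x ∧ s(c, d) ∈ eset x) _ _
                (fun x hx => ⟨(memR x _).1 hx.1, (memR x _).1 hx.2⟩)).trans ?_
              rw [hex]
              simp only [Finset.card_empty, Nat.cast_zero, zero_mul]
              exact hκ.le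
            obtain ⟨x₀, hx₀⟩ := hex
            rw [mem_filter] at hx₀
            have hab := (ends hHX x₀ hx₀.2.1).1
            have hcd := (ends hHX x₀ hx₀.2.2).1
            -- a third vertex
            obtain ⟨z, hz, hza, hzb⟩ : ∃ z, (z = c ∨ z = d) ∧ z ≠ a ∧ z ≠ b := by
              by_cases hc : c = a ∨ c = b
              · refine ⟨d, Or.inr rfl, ?_, ?_⟩
                · rintro rfl
                  rcases hc with rfl | rfl
                  · exact hcd rfl
                  · exact hef Sym2.eq_swap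
                · rintro rfl
                  rcases hc with rfl | rfl
                  · exact hef rfl
                  · exact hcd rfl
              · push Not at hc
                exact ⟨c, Or.inl rfl, hc.1, hc.2⟩
            have hT : ({z, a, b} : Finset (Vx K m)).card = 3 := by
              rw [Finset.card_insert_of_notMem (by simp [hza, hzb]), Finset.card_pair hab]
            refine (sumfst (fun x => s(a, b) ∈ eset x ∧ s(c, d) ∈ eset x) _ _
                (fun x hx => ⟨(memR x _).1 hx.1, (memR x _).1 hx.2⟩)).trans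
                (three {z, a, b} hT _ _ ?_)
            rintro x ⟨h1, h2⟩
            have e1 := (ends hHX x h1).2
            have e2 := (ends hHX x h2).2
            intro y hy
            simp only [mem_insert, mem_singleton] at hy
            rcases hy with rfl | rfl | rfl
            · rcases hz with rfl | rfl
              · exact e2.1
              · exact e2.2
            · exact e1.1
            · exact e1.2)
    (by
      intro _
      refine le_trans ?_ hfin
      rw [hwt, div_le_div_iff₀ hkm hmR]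
      push_cast
      have h1 : (1 : ℝ) ≤ m := by exact_mod_cast hm1
      have h2 : (m : ℝ) ≤ (m : ℝ) ^ 5 := by
        calc (m : ℝ) = (m : ℝ) ^ 1 := by ring
          _ ≤ (m : ℝ) ^ 5 := pow_le_pow_right₀ h1 (by norm_num)
      have h3 : (1 : ℝ) ≤ 216 * K * (6 * K) := by nlinarith
      have h4 : (1 : ℝ) * (m : ℝ) ^ 5 ≤ 216 * K * (6 * K) * (m : ℝ) ^ 5 :=
        mul_le_mul_of_nonneg_right h3 (by positivity)
      nlinarith [h2, h4])
  refine ⟨M, ?_, ?_, ?_⟩
  · intro x hx y hy hxy hc
    have h1 := hM1 x hx y hy hxy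
    rw [Finset.disjoint_left] at h1 ⊢
    intro v hv hv'
    exact h1 ((memL x v x.2).2 ⟨hv, rfl⟩) ((memL y v x.2).2 ⟨hv', hc.symm⟩)
  · intro x hx y hy hxy
    have h1 := hM1 x hx y hy hxy
    rw [Finset.disjoint_left] at h1 ⊢
    intro e he he'
    exact h1 ((memR x e).2 he) ((memR y e).2 he')
  · refine le_trans (le_of_eq ?_) hM2
    congr 1
    rw [Finset.sum_const, nsmul_eq_mul, Finset.card_univ]
    have h1 : Fintype.card (Hx K m × Fin (6 * K * m)) = (K * (18 * K + 7)) * m ^ 6 * (6 * K * m) := by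
      simp only [Fintype.card_prod, Fintype.card_fin, ZMod.card, Fintype.card_fun]
    rw [h1, hwt]
    have hne : ((6 * K * m : ℕ) : ℝ) ≠ 0 := by positivity
    have hne' : (m : ℝ) ≠ 0 := hmR.ne'
    push_cast
    field_simp

end Pool.Agent.T2H80.UP
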