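import Mathlib

/-!
# Union page number of complete graphs: definitions and statements of the packages

Package `X` proves `theorem pX : S_X` (from other statements as hypotheses, in the order given) in the file
`Pool/Agent/T2H80/UP/X.lean` (namespace `Pool.Agent.T2H80.UP`, auxiliary lemmas in the sub-namespace `PkgX`),
importing this file. Statements must not be changed; if one is false or awkward, tell helper80 at once.

Goal: `pnu (K_n) / n → 1/3`.
-/

set_option autoImplicit false

open Finset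

namespace Pool.Agent.T2H80.UP

/-! ### definitions of the problem -/

/-- a set of pairwise non-crossing edges, for the vertex order given by `σ` -/
def IsPage {V : Type} (σ : V → ℕ) (P : Set (Sym2 V)) : Prop :=
  ∀ a b c d : V, s(a, b) ∈ P → s(c, d) ∈ P → ¬ (σ a < σ c ∧ σ c < σ b ∧ σ b < σ d)

/-- a union page: it can be partitioned into pages such that every vertex is incident to edges of
at most one of them -/
def IsUnionPage {V : Type} (σ : V → ℕ) (U : Set (Sym2 V)) : Prop :=
  ∃ (m : ℕ) (P : Fin m → Set (Sym2 V)), (∀ i, IsPage σ (P i)) ∧ (⋃ i, P i) = U ∧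
    (∀ i j, i ≠ j → Disjoint (P i) (P j)) ∧
    ∀ (v : V) (i j : Fin m), (∃ e ∈ P i, v ∈ e) → (∃ e ∈ P j, v ∈ e) → i = j

/-- `G` has a `k`-union book embedding: a vertex order (given by an injective map `σ` to `ℕ`) and a
partition of the edges into `k` union pages -/
def UnionBook {V : Type} (G : SimpleGraph V) (k : ℕ) : Prop :=
  ∃ σ : V → ℕ, Function.Injective σ ∧ ∃ U : Fin k → Set (Sym2 V),
    (∀ i, IsUnionPage σ (U i)) ∧ (⋃ i, U i) = G.edgeSet ∧ ∀ i j, i ≠ j → Disjoint (U i) (U j)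

/-- the union page number -/
noncomputable def pnu {V : Type} (G : SimpleGraph V) : ℕ := sInf {k | UnionBook G k}

/-! ### labelled form -/

/-- `U` with the labels `lab` is a union page: edges with a common vertex have the same label, edges
with the same label do not cross -/
def LU {V ι : Type} (σ : V → ℕ) (lab : Sym2 V → ι) (U : Set (Sym2 V)) : Prop :=
  (∀ e ∈ U, ∀ f ∈ U, ∀ v : V, v ∈ e → v ∈ f → lab e = lab f) ∧
  ∀ a b c d : V, s(a, b) ∈ U → s(c, d) ∈ U → lab s(a, b) = lab s(c, d) →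
    ¬ (σ a < σ c ∧ σ c < σ b ∧ σ b < σ d)

/-- COV: `U i = {e | ¬ e.IsDiag ∧ c e = i}`; its pages are the classes of equal label (the finitely many
labels of the edges, indexed by some `Fin m`). -/
def S_COV : Prop := ∀ (V ι : Type) [Fintype V] (σ : V → ℕ), Function.Injective σ →
  ∀ (k : ℕ) (c : Sym2 V → Fin k) (lab : Fin k → Sym2 V → ι),
    (∀ i, LU σ (lab i) {e | ¬ e.IsDiag ∧ c e = i}) → UnionBook (⊤ : SimpleGraph V) k

/-- MON: take the order `σ ∘ f` and the preimages of the union pages and of their pages under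
`Sym2.map f`. -/
def S_MON : Prop := ∀ (V W : Type) (f : V → W), Function.Injective f → ∀ k : ℕ,
  UnionBook (⊤ : SimpleGraph W) k → UnionBook (⊤ : SimpleGraph V) k

/-! ### lower bound -/

/-- weight of an edge of length `d` in the order `0, ..., n-1` -/
def yw (n d : ℕ) : ℕ := min n (3 * min d (n - d))

/-- LW: **a page with the vertices `W` has weight at most `n #W`**. First show, by induction on `#W ≥ 2`,
for every non-crossing `P` on `W` with least element `u` and largest element `v`: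
`Σ_P min n (3 (e.2 - e.1)) ≤ 3 (v - u) + n (#W - 2)`. For `#W = 2` clear. For `#W ≥ 3` let `P' = P.erase (u, v)`; there
is `c ∈ W`, `u < c < v`, such that no edge of `P'` passes over `c` (`e.1 < c < e.2`): if `u` has an edge in `P'`, take
the longest one `(u, c)` (an edge over `c` would be a longer one from `u`, or cross `(u, c)`); if not, take the
least `c ∈ W` with `c > u`. Split `P'` into the edges with `e.2 ≤ c` and those with `c ≤ e.1`, and `W` into `{≤ c}`, `{≥ c}`
(`#W + 1` elements together): `Σ_{P'} ≤ 3 (c - u) + 3 (v - c) + n (#W - 3)`, and `(u, v)` has weight `≤ n`. In the end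
the same splitting once more: `yw n (v - u) ≤ 3 (n - (v - u))`, so `Σ_P ≤ 3 (n - (v - u)) + 3 (v - u) + n (#W - 3) = n #W`. -/
def S_LW : Prop := ∀ (n : ℕ) (W : Finset ℕ) (P : Finset (ℕ × ℕ)), (∀ w ∈ W, w < n) →
  (∀ e ∈ P, e.1 ∈ W ∧ e.2 ∈ W ∧ e.1 < e.2) →
  (∀ e ∈ P, ∀ f ∈ P, ¬ (e.1 < f.1 ∧ f.1 < e.2 ∧ e.2 < f.2)) →
  ∑ e ∈ P, yw n (e.2 - e.1) ≤ n * W.card

/-- LS: `Σ_{a<b<n} yw n (b - a) = Σ_{0<d<n} (n - d) yw n d`, and `yw n d = yw n (n - d)`, so twice the sum is
`n Σ_{0<d<n} yw n d`; with `n = 3 q + r`, `Σ_{0<d<n} yw n d = 2 Σ_{d ≤ q} 3 d + n (n - 1 - 2 q)`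
`= 3 q (q + 1) + n (n - 1 - 2 q) ≥ (2 n² - 2) / 3`. -/
def S_LS : Prop := ∀ n : ℕ,
  n ^ 3 ≤ 3 * (∑ e ∈ (range n ×ˢ range n).filter (fun e => e.1 < e.2), yw n (e.2 - e.1)) + n

/-- LB (uses LW, LS): replace every vertex `v` by its rank `#{w | σ w < σ v} < n`. For a union page with the pages
`P_i` with vertex sets `W_i` (the vertices incident to an edge of `P_i`; they are disjoint) the total weight is
at most `n Σ #W_i ≤ n²`; every edge is in one of the `k` union pages. -/
def S_LB : Prop := ∀ (n k : ℕ), UnionBook (⊤ : SimpleGraph (Fin n)) k → n ^ 3 ≤ 3 * k * n ^ 2 + n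

/-! ### the hexagons -/

/-- the modulus -/
abbrev Md (K : ℕ) : ℕ := 18 * K + 7

/-- vertices of the base hexagon number `j`; the sides have the lengths `2K+1+j, 5K+1-2j, 2j+1, 6K+2-j, 3K+2+2j, 2K-2j` -/
def Sk (K j : ℕ) : Fin 6 → ℕ :=
  ![0, 2 * K + 1 + j, 7 * K + 2 - j, 7 * K + 3 + j, 13 * K + 5, 16 * K + 7 + 2 * j]

/-- the edges of a triangulated hexagon -/
def E9 : Finset (Fin 6 × Fin 6) :=
  {(0, 1), (1, 2), (2, 3), (3, 4), (4, 5), (0, 5), (0, 2), (0, 3), (3, 5)}

/-- vertices: `Md K` blocks of `m` vertices -/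
abbrev Vx (K m : ℕ) : Type := ZMod (Md K) × Fin m

/-- the order of the vertices -/
def ord (K m : ℕ) (v : Vx K m) : ℕ := v.1.val * m + v.2

/-- index set of the hexagons: number of the base hexagon, translation, positions in the blocks -/
abbrev Hx (K m : ℕ) : Type := (Fin K × ZMod (Md K)) × (Fin 6 → Fin m)

/-- vertex number `i` of a hexagon -/
def vert {K m : ℕ} (x : Hx K m) (i : Fin 6) : Vx K m :=
  (x.1.2 + (Sk K x.1.1 i : ZMod (Md K)), x.2 i)

/-- the vertices of a hexagon -/
def vset {K m : ℕ} (x : Hx K m) : Finset (Vx K m) := univ.image (vert x)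

/-- the nine edges of a hexagon -/
def eset {K m : ℕ} (x : Hx K m) : Finset (Sym2 (Vx K m)) :=
  E9.image fun p => s(vert x p.1, vert x p.2)

/-- DZ: the base hexagons form a difference family. For `e ∈ E9`, `0 < Sk e.2 - Sk e.1 < 18 K + 7`; by `omega` in the 81
cases: these differences are different for different `(j, e)`, and the sum of two of them is never `18 K + 7`. -/
def S_DZ : Prop := ∀ (K : ℕ) (j j' : Fin K) (t t' : ZMod (Md K)), ∀ e ∈ E9, ∀ f ∈ E9,
  s(t + (Sk K j e.1 : ZMod (Md K)), t + (Sk K j e.2 : ZMod (Md K))) =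
    s(t' + (Sk K j' f.1 : ZMod (Md K)), t' + (Sk K j' f.2 : ZMod (Md K))) → j = j' ∧ e = f ∧ t = t'

/-- HX: the edges of a hexagon do not cross, its vertices are different. With `L = (18 K + 7) m` and
`X i = (t.val + Sk K j i) m + θ i` one has `X 0 < X 1 < ... < X 5 < X 0 + L`, and `ord (vert x i) = X i` or `X i - L`
(both in `[0, L)`); then `omega` in the 81 (times 4) cases. -/
def S_HX : Prop := ∀ (K m : ℕ) (x : Hx K m), Function.Injective (vert x) ∧
  ∀ a b c d : Vx K m, s(a, b) ∈ eset x → s(c, d) ∈ eset x →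
    ¬ (ord K m a < ord K m c ∧ ord K m c < ord K m b ∧ ord K m b < ord K m d)

/-- CN: the number of hexagons containing all vertices of the nonempty set `T`. Choose the numbers `g v` of the
vertices `v ∈ T` (at most `6 ^ #T` possibilities; `g` is injective on `T`, as `vert x (g v) = v`), and `j`; then `t` is
determined (by one of the `v`), and the values of `θ` on the `#T` elements `g v`. -/
def S_CN : Prop := ∀ (K m : ℕ) (T : Finset (Vx K m)), T.Nonempty →
  (univ.filter fun x : Hx K m => T ⊆ vset x).card * m ^ T.card ≤ 6 ^ T.card * K * m ^ 6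

/-- NB (uses DZ, HX, CN and `Pool.Agent.TH437.SP.nibble_T`, see `Pool/Agent/TH437/SP/Nib.lean`; the statement `nibble`
is in `Pool/Agent/H115R4/Stubs.lean`): `ι = Hx K m × Fin k`, `k = 6 K m`, `α = (Vx K m × Fin k) ⊕ Sym2 (Vx K m)`,
`A (x, c) = {inl (v, c) | v ∈ vset x} ∪ {inr e | e ∈ eset x}` (at most 15 elements), constant weight `1 / (k m⁴)`.
Loads: `inl (v, c)`: CN with `T = {v}` gives at most `6 K m⁵` hexagons: load `≤ 1`. `inr s(u, v)`: by DZ all hexagons with this
edge have the same `j`, `t` and the same positions of `u`, `v`: at most `m⁴` hexagons and `k` colours: load `≤ 1`.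
Codegrees: two elements `inl`: CN with `#T = 2`, at most `36 K m⁴` hexagons, one colour; `inl` and `inr s(u, v)`: the same with
`T = {u, v}`; two `inr`: at least three different vertices, `216 K m³` hexagons, `k` colours: all `≤ 216 K / m`.
Total weight: `K (18 K + 7) m²`. -/
def S_NB : Prop := ∀ (K : ℕ) (θ : ℝ), 1 ≤ K → 0 < θ → ∃ m₀ : ℕ, ∀ m : ℕ, m₀ ≤ m → 1 ≤ m →
  ∃ M : Finset (Hx K m × Fin (6 * K * m)),
    (∀ x ∈ M, ∀ y ∈ M, x ≠ y → x.2 = y.2 → Disjoint (vset x.1) (vset y.1)) ∧
    (∀ x ∈ M, ∀ y ∈ M, x ≠ y → Disjoint (eset x.1) (eset y.1)) ∧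
    (1 - θ) * (K * (18 * K + 7) * m ^ 2 : ℝ) ≤ M.card

/-! ### the remaining edges -/

/-- GR: greedy colouring of the edges: induction on `R` (`Finset.induction_on`): an edge has a common vertex with at
most `2 D` other ones. -/
def S_GR : Prop := ∀ (V : Type) [DecidableEq V] (R : Finset (Sym2 V)) (D : ℕ),
  (∀ v : V, (R.filter fun e => v ∈ e).card ≤ D) →
  ∃ c : Sym2 V → Fin (2 * D + 1), ∀ e ∈ R, ∀ f ∈ R, e ≠ f → (∃ v, v ∈ e ∧ v ∈ f) → c e ≠ c f

/-- LO (uses GR): let `T` be the set of the vertices with more than `D` edges in `R`; `#T D ≤ 2 #R`. The edges with an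
end in `T`: colour = one of the ends in `T` (a star: constant label `none`, two edges with a common vertex do not cross, `σ`
injective is not needed). The other ones: GR, the label of `e` is `some e` (an edge does not cross itself).
`r = #T + (2 D + 1)`. -/
def S_LO : Prop := ∀ (V : Type) [Fintype V] [DecidableEq V] (σ : V → ℕ) (R : Finset (Sym2 V)) (D : ℕ),
  (∀ e ∈ R, ¬ e.IsDiag) → 1 ≤ D →
  ∃ (r : ℕ) (c : Sym2 V → Fin r) (lab : Fin r → Sym2 V → Option (Sym2 V)),
    r * D ≤ 2 * R.card + (2 * D + 1) * D ∧ ∀ i, LU σ (lab i) {e | e ∈ R ∧ c e = i}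

/-- UP (uses COV, MON, HX, NB, LO): for `K` large, `θ` small and all large `m`, `n' = (18 K + 7) m`: the union pages are
the sets `⋃ eset x`, `(x, c) ∈ M` (label of an edge: the hexagon; `6 K m ≤ n' / 3` colours) and those of LO for the set `R` of the
remaining edges: `#R ≤ n'² / 2 - 9 #M ≤ δ n'²` with `δ = 7 / (2 (18 K + 7)) + θ / 2`, `D = ⌈√δ n'⌉`. For `n` arbitrary take
`m = n / (18 K + 7) + 1` and MON. -/
def S_UP : Prop := ∀ ε : ℝ, 0 < ε → ∃ n₀ : ℕ, ∀ n : ℕ, n₀ ≤ n →
  ∃ k : ℕ, UnionBook (⊤ : SimpleGraph (Fin n)) k ∧ (k : ℝ) ≤ (1 / 3 + ε) * n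

/-- FI (uses LB, UP) -/
def S_FI : Prop := Filter.Tendsto (fun n : ℕ => (pnu (⊤ : SimpleGraph (Fin n)) : ℝ) / n)
  Filter.atTop (nhds (1 / 3))

end Pool.Agent.T2H80.UP
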