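import Pool.Agent.T2H80.UP.Stm

/-!
# Package UP : upper bound (assembly)
-/

set_option autoImplicit false

open Finset

namespace Pool.Agent.T2H80.UP

namespace PkgUP

lemma LU_mono {V ι : Type} (σ : V → ℕ) (lab : Sym2 V → ι) (U U' : Set (Sym2 V)) (h : LU σ lab U)
    (hs : U' ⊆ U) : LU σ lab U' :=
  ⟨fun e he f hf v h1 h2 => h.1 e (hs he) f (hs hf) v h1 h2,
    fun a b c d h1 h2 h3 => h.2 a b c d (hs h1) (hs h2) h3⟩

lemma LU_map {V ι κ : Type} (σ : V → ℕ) (lab : Sym2 V → ι) (g : ι → κ) (hg : Function.Injective g)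
    (U : Set (Sym2 V)) (h : LU σ lab U) : LU σ (fun e => g (lab e)) U :=
  ⟨fun e he f hf v h1 h2 => congrArg g (h.1 e he f hf v h1 h2),
    fun a b c d h1 h2 h3 => h.2 a b c d h1 h2 (hg h3)⟩

section

variable {K m : ℕ}

lemma ord_inj (hm : 1 ≤ m) : Function.Injective (ord K m) := by
  rintro ⟨a, x⟩ ⟨b, y⟩ h
  unfold ord at h
  simp only at h
  have hx := x.2
  have hy := y.2
  have h1 : a.val = b.val := by
    have e1 : (a.val * m + (x : ℕ)) / m = a.val := by
      rw [mul_comm, Nat.mul_add_div (by omega), Nat.div_eq_of_lt hx, add_zero]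
    have e2 : (b.val * m + (y : ℕ)) / m = b.val := by
      rw [mul_comm, Nat.mul_add_div (by omega), Nat.div_eq_of_lt hy, add_zero]
    rw [← e1, ← e2, h]
  have h2 : a = b := ZMod.val_injective _ h1
  subst h2
  have h3 : (x : ℕ) = y := by omega
  rw [Fin.ext h3]

lemma mem_vset (x : Hx K m) (e : Sym2 (Vx K m)) (he : e ∈ eset x) (v : Vx K m) (hv : v ∈ e) :
    v ∈ vset x := by
  unfold eset at he
  obtain ⟨p, -, rfl⟩ := Finset.mem_image.1 he
  unfold vset
  rcases Sym2.mem_iff.1 hv with rfl | rfl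
  · exact Finset.mem_image_of_mem _ (Finset.mem_univ _)
  · exact Finset.mem_image_of_mem _ (Finset.mem_univ _)

lemma E9_ne (p : Fin 6 × Fin 6) (hp : p ∈ E9) : p.1 ≠ p.2 := by
  revert p
  decide

lemma E9_inj (p q : Fin 6 × Fin 6) (hp : p ∈ E9) (hq : q ∈ E9) (h : s(p.1, p.2) = s(q.1, q.2)) :
    p = q := by
  revert p q
  decide

lemma eset_card (x : Hx K m) (hx : Function.Injective (vert x)) : (eset x).card = 9 := by
  unfold eset
  rw [Finset.card_image_of_injOn]
  · rfl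
  · intro p hp q hq h
    rw [Finset.mem_coe] at hp hq
    refine E9_inj p q hp hq ?_
    have h1 : Sym2.map (vert x) s(p.1, p.2) = Sym2.map (vert x) s(q.1, q.2) := h
    exact Sym2.map.injective hx h1

lemma eset_diag (x : Hx K m) (hx : Function.Injective (vert x)) (e : Sym2 (Vx K m))
    (he : e ∈ eset x) : ¬ e.IsDiag := by
  unfold eset at he
  obtain ⟨p, hp, rfl⟩ := Finset.mem_image.1 he
  rw [Sym2.mk_isDiag_iff]
  exact fun h => E9_ne p hp (hx h)

open Classical in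
/-- the hexagon of an edge -/
noncomputable def own {k : ℕ} (M : Finset (Hx K m × Fin k)) (e : Sym2 (Vx K m)) :
    Option (Hx K m × Fin k) :=
  if h : ∃ x ∈ M, e ∈ eset x.1 then some h.choose else none

lemma own_spec {k : ℕ} (M : Finset (Hx K m × Fin k)) (e : Sym2 (Vx K m))
    (h : ∃ x ∈ M, e ∈ eset x.1) : ∃ x ∈ M, e ∈ eset x.1 ∧ own M e = some x := by
  refine ⟨h.choose, h.choose_spec.1, h.choose_spec.2, ?_⟩
  unfold own
  rw [dif_pos h]

open Classical in
/-- the remaining edges -/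
noncomputable def rem {k : ℕ} (M : Finset (Hx K m × Fin k)) : Finset (Sym2 (Vx K m)) :=
  univ.filter fun e => ¬ e.IsDiag ∧ ¬ ∃ x ∈ M, e ∈ eset x.1

lemma mem_rem {k : ℕ} (M : Finset (Hx K m × Fin k)) (e : Sym2 (Vx K m)) :
    e ∈ rem M ↔ ¬ e.IsDiag ∧ ¬ ∃ x ∈ M, e ∈ eset x.1 := by
  classical
  unfold rem
  rw [Finset.mem_filter]
  simp only [Finset.mem_univ, true_and]

lemma rem_card (hHX : S_HX) {k : ℕ} (M : Finset (Hx K m × Fin k))
    (hM : ∀ x ∈ M, ∀ y ∈ M, x ≠ y → Disjoint (eset x.1) (eset y.1)) :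
    (rem M).card + 9 * M.card = ((18 * K + 7) * m).choose 2 := by
  classical
  have h1 : (M.biUnion fun x => eset x.1).card = 9 * M.card := by
    calc (M.biUnion fun x => eset x.1).card = ∑ x ∈ M, (eset x.1).card := Finset.card_biUnion hM
      _ = ∑ _x ∈ M, 9 := Finset.sum_congr rfl fun x _ => eset_card x.1 (hHX K m x.1).1
      _ = 9 * M.card := by rw [Finset.sum_const, smul_eq_mul, mul_comm]
  have h2 : (univ.filter fun e : Sym2 (Vx K m) => ¬ e.IsDiag).card =
      ((18 * K + 7) * m).choose 2 := by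
    have h3 := Sym2.card_subtype_not_diag (α := Vx K m)
    rw [Fintype.card_subtype] at h3
    rw [h3, Fintype.card_prod, ZMod.card, Fintype.card_fin]
  have h4 : rem M ∪ (M.biUnion fun x => eset x.1) =
      univ.filter fun e : Sym2 (Vx K m) => ¬ e.IsDiag := by
    ext e
    rw [Finset.mem_union, mem_rem, Finset.mem_biUnion, Finset.mem_filter]
    simp only [Finset.mem_univ, true_and]
    constructor
    · rintro (h | ⟨x, hx, he⟩)
      · exact h.1
      · exact eset_diag x.1 (hHX K m x.1).1 e he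
    · intro h
      by_cases hx : ∃ x ∈ M, e ∈ eset x.1
      · exact Or.inr hx
      · exact Or.inl ⟨h, hx⟩
  have h5 : Disjoint (rem M) (M.biUnion fun x => eset x.1) := by
    rw [Finset.disjoint_left]
    intro e he he'
    rw [mem_rem] at he
    exact he.2 (Finset.mem_biUnion.1 he')
  rw [← h1, ← h2, ← h4, Finset.card_union_of_disjoint h5]

/-- the union book embedding -/
lemma book (hCOV : S_COV) (hHX : S_HX) (hLO : S_LO) (hm : 1 ≤ m) {k : ℕ} (hk : 1 ≤ k)
    (M : Finset (Hx K m × Fin k))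
    (h1 : ∀ x ∈ M, ∀ y ∈ M, x ≠ y → x.2 = y.2 → Disjoint (vset x.1) (vset y.1)) (D : ℕ)
    (hD : 1 ≤ D) : ∃ r : ℕ, r * D ≤ 2 * (rem M).card + (2 * D + 1) * D ∧
      UnionBook (⊤ : SimpleGraph (Vx K m)) (k + r) := by
  classical
  obtain ⟨r, c, lab, hr, hc⟩ := hLO (Vx K m) (ord K m) (rem M) D
    (fun e he => ((mem_rem M e).1 he).1) hD
  refine ⟨r, hr, ?_⟩
  refine hCOV (Vx K m) (Option (Sym2 (Vx K m)) ⊕ Option (Hx K m × Fin k)) (ord K m) (ord_inj hm)
    (k + r)
    (fun e => match own M e with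
      | some x => Fin.castAdd r x.2
      | none => if e.IsDiag then ⟨0, by omega⟩ else Fin.natAdd k (c e))
    (Fin.addCases (fun _ e => Sum.inr (own M e)) (fun i e => Sum.inl (lab i e))) ?_
  have hnone : ∀ e, own M e = none → ¬ ∃ x ∈ M, e ∈ eset x.1 := by
    intro e he hx
    obtain ⟨x, -, -, h⟩ := own_spec M e hx
    rw [he] at h
    exact absurd h (by simp)
  have hsome : ∀ e x, own M e = some x → x ∈ M ∧ e ∈ eset x.1 := by
    intro e x he
    by_cases hx : ∃ x ∈ M, e ∈ eset x.1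
    · obtain ⟨y, hy1, hy2, hy3⟩ := own_spec M e hx
      rw [he] at hy3
      obtain rfl := Option.some.inj hy3
      exact ⟨hy1, hy2⟩
    · unfold own at he
      rw [dif_neg hx] at he
      exact absurd he (by simp)
  intro i
  refine Fin.addCases (fun i => ?_) (fun i => ?_) i
  · simp only [Fin.addCases_left]
    have hU : ∀ e : Sym2 (Vx K m), (¬ e.IsDiag ∧ (match own M e with
        | some x => Fin.castAdd r x.2
        | none => if e.IsDiag then ⟨0, by omega⟩ else Fin.natAdd k (c e)) = Fin.castAdd r i) →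
        ∃ x, own M e = some x ∧ x ∈ M ∧ e ∈ eset x.1 ∧ x.2 = i := by
      rintro e ⟨he, h⟩
      rcases ho : own M e with _ | x
      · rw [ho] at h
        simp only [if_neg he] at h
        have h' := congrArg Fin.val h
        simp only [Fin.val_natAdd, Fin.val_castAdd] at h'
        have := i.2
        omega
      · rw [ho] at h
        simp only at h
        refine ⟨x, rfl, (hsome e x ho).1, (hsome e x ho).2, ?_⟩
        have h' := congrArg Fin.val h
        simp only [Fin.val_castAdd] at h'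
        exact Fin.ext h'
    constructor
    · intro e he f hf v hve hvf
      obtain ⟨x, ex, xM, xe, xi⟩ := hU e he
      obtain ⟨y, ey, yM, ye, yi⟩ := hU f hf
      show Sum.inr (own M e) = Sum.inr (own M f)
      rw [ex, ey]
      by_contra hne
      have hxy : x ≠ y := fun h => hne (by rw [h])
      have hd := h1 x xM y yM hxy (xi.trans yi.symm)
      exact (Finset.disjoint_left.1 hd) (mem_vset x.1 e xe v hve) (mem_vset y.1 f ye v hvf)
    · intro a b c' d hab hcd hl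
      obtain ⟨x, ex, xM, xe, xi⟩ := hU _ hab
      obtain ⟨y, ey, yM, ye, yi⟩ := hU _ hcd
      have hl : (Sum.inr (own M s(a, b)) : Option (Sym2 (Vx K m)) ⊕ Option (Hx K m × Fin k)) =
        Sum.inr (own M s(c', d)) := hl
      rw [ex, ey] at hl
      have hxy : x = y := Option.some.inj (Sum.inr_injective hl)
      subst hxy
      exact (hHX K m x.1).2 a b c' d xe ye
  · simp only [Fin.addCases_right]
    refine LU_map (ord K m) (lab i) Sum.inl Sum.inl_injective _ (LU_mono _ _ _ _ (hc i) ?_)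
    rintro e ⟨he, h⟩
    rcases ho : own M e with _ | x
    · rw [ho] at h
      simp only [if_neg he] at h
      refine ⟨(mem_rem M e).2 ⟨he, hnone e ho⟩, ?_⟩
      have h' := congrArg Fin.val h
      simp only [Fin.val_natAdd] at h'
      exact Fin.ext (by omega)
    · rw [ho] at h
      simp only at h
      have h' := congrArg Fin.val h
      simp only [Fin.val_natAdd, Fin.val_castAdd] at h'
      have := x.2.2
      omega

end

lemma arith {N m K R c r D : ℝ} {η : ℝ} (hη : 0 < η) (hK : 1 ≤ K) (hN : N = 18 * K + 7)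
    (hm : 1 ≤ m) (hNη : 7 ≤ η ^ 2 * N) (hR : R + 9 * c ≤ (N * m) ^ 2 / 2)
    (hc : (1 - η ^ 2) * (K * (18 * K + 7) * m ^ 2) ≤ c)
    (hD1 : η * (N * m) ≤ D) (hD2 : D ≤ η * (N * m) + 1)
    (hr : r * D ≤ 2 * R + (2 * D + 1) * D) : 6 * K * m + r ≤ (1 / 3 + 4 * η) * (N * m) + 3 := by
  have hNp : 0 < N := by rw [hN]; linarith
  have hn : 0 < N * m := by positivity
  have h1 : R ≤ η ^ 2 * (N * m) ^ 2 := by
    have e1 : R ≤ (N * m) ^ 2 / 2 - 9 * ((1 - η ^ 2) * (K * (18 * K + 7) * m ^ 2)) := by linarith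
    have e2 : (N * m) ^ 2 / 2 - 9 * ((1 - η ^ 2) * (K * (18 * K + 7) * m ^ 2)) =
        N * m ^ 2 * (7 / 2 + 9 * K * η ^ 2) := by
      rw [hN]; ring
    have e3 : 7 / 2 + 9 * K * η ^ 2 ≤ η ^ 2 * N := by
      have : 9 * K ≤ N / 2 := by rw [hN]; linarith
      nlinarith [sq_nonneg η, mul_le_mul_of_nonneg_right this (sq_nonneg η)]
    have e4 : N * m ^ 2 * (7 / 2 + 9 * K * η ^ 2) ≤ N * m ^ 2 * (η ^ 2 * N) :=
      mul_le_mul_of_nonneg_left e3 (by positivity)
    calc R ≤ _ := e1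
      _ = _ := e2
      _ ≤ _ := e4
      _ = _ := by ring
  have hDp : 0 < D := lt_of_lt_of_le (by positivity) hD1
  have h2 : r ≤ 2 * η * (N * m) + 2 * D + 1 := by
    have e1 : r * D ≤ (2 * η * (N * m) + 2 * D + 1) * D := by
      have e2 : 2 * R ≤ 2 * η * (N * m) * D := by
        have e3 : 2 * η * (N * m) * (η * (N * m)) ≤ 2 * η * (N * m) * D :=
          mul_le_mul_of_nonneg_left hD1 (by positivity)
        nlinarith
      nlinarith
    exact le_of_mul_le_mul_right e1 hDp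
  have h3 : 6 * K * m ≤ 1 / 3 * (N * m) := by
    rw [hN]
    nlinarith
  nlinarith

end PkgUP

open PkgUP in
theorem pUP (hCOV : S_COV) (hMON : S_MON) (hHX : S_HX) (hNB : S_NB) (hLO : S_LO) : S_UP := by
  intro ε hε
  obtain ⟨η, hη, hηε⟩ : ∃ η : ℝ, 0 < η ∧ 4 * η = ε / 2 := ⟨ε / 8, by positivity, by ring⟩
  obtain ⟨K₀, hK₀⟩ := exists_nat_ge (7 / η ^ 2)
  obtain ⟨K, hK1, hK2⟩ : ∃ K : ℕ, 1 ≤ K ∧ (7 : ℝ) / η ^ 2 ≤ K :=
    ⟨K₀ + 1, by omega, by push_cast; linarith⟩
  obtain ⟨m₀, hm₀⟩ := hNB K (η ^ 2) hK1 (by positivity)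
  have hK1' : (1 : ℝ) ≤ K := by exact_mod_cast hK1
  have hNη : (7 : ℝ) ≤ η ^ 2 * (18 * K + 7) := by
    rw [div_le_iff₀ (by positivity)] at hK2
    nlinarith [sq_nonneg η]
  obtain ⟨n₁, hn₁⟩ := exists_nat_ge (2 / ε * ((1 / 3 + ε / 2) * (18 * K + 7) + 3))
  refine ⟨n₁ + (18 * K + 7) * m₀, fun n hn => ?_⟩
  obtain ⟨q, hq⟩ : ∃ q, q = n / (18 * K + 7) := ⟨_, rfl⟩
  have hdiv := Nat.div_add_mod n (18 * K + 7)
  have hmod := Nat.mod_lt n (show 18 * K + 7 > 0 by omega)
  have hq0 : m₀ ≤ q := by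
    rw [hq, Nat.le_div_iff_mul_le (by omega), mul_comm]
    exact (Nat.le_add_left _ _).trans hn
  rw [← hq] at hdiv
  obtain ⟨ρ, hρ⟩ : ∃ ρ, ρ = n % (18 * K + 7) := ⟨_, rfl⟩
  rw [← hρ] at hdiv hmod
  obtain ⟨m, hm⟩ : ∃ m, m = q + 1 := ⟨_, rfl⟩
  have hm1 : 1 ≤ m := by omega
  have hmm : m₀ ≤ m := by omega
  have hnm1 : n ≤ (18 * K + 7) * m := by
    rw [hm, mul_add, mul_one]
    omega
  have hnm2 : (18 * K + 7) * m ≤ n + (18 * K + 7) := by
    rw [hm, mul_add, mul_one]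
    omega
  obtain ⟨M, h1, h2, h3⟩ := hm₀ m hmm hm1
  have hn' : (0 : ℝ) < (18 * K + 7) * m := by
    have : (0 : ℝ) < m := by exact_mod_cast hm1
    positivity
  obtain ⟨D, hD⟩ : ∃ D : ℕ, D = ⌈η * ((18 * K + 7) * m)⌉₊ := ⟨_, rfl⟩
  have hD1 : η * ((18 * K + 7) * m) ≤ (D : ℝ) := by
    rw [hD]; exact Nat.le_ceil _
  have hD2 : (D : ℝ) ≤ η * ((18 * K + 7) * m) + 1 := by
    rw [hD]; exact (Nat.ceil_lt_add_one (by positivity)).le
  have hDp : 1 ≤ D := by
    have : (0 : ℝ) < D := lt_of_lt_of_le (by positivity) hD1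
    exact_mod_cast this
  have hk : 1 ≤ 6 * K * m := Nat.mul_pos (by omega) hm1
  obtain ⟨r, hr, hb⟩ := book hCOV hHX hLO hm1 hk M h1 D hDp
  have hcard := rem_card hHX M h2
  refine ⟨6 * K * m + r, ?_, ?_⟩
  · have hc : Fintype.card (Fin n) ≤ Fintype.card (Vx K m) := by
      rw [Fintype.card_fin, Fintype.card_prod, ZMod.card, Fintype.card_fin]
      exact hnm1
    obtain ⟨f⟩ := Function.Embedding.nonempty_of_card_le hc
    exact hMON (Fin n) (Vx K m) f f.injective _ hb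
  · have hm1' : (1 : ℝ) ≤ m := by exact_mod_cast hm1
    have hR : ((rem M).card : ℝ) + 9 * (M.card : ℝ) ≤ (((18 : ℝ) * K + 7) * m) ^ 2 / 2 := by
      have e1 : (((rem M).card + 9 * M.card : ℕ) : ℝ) = ((((18 * K + 7) * m).choose 2 : ℕ) : ℝ) := by
        rw [hcard]
      rw [Nat.cast_choose_two] at e1
      push_cast at e1
      nlinarith
    have hr' : (r : ℝ) * D ≤ 2 * ((rem M).card : ℝ) + (2 * D + 1) * D := by exact_mod_cast hr
    have h4 := arith (N := 18 * K + 7) (m := m) (K := K) (R := (rem M).card) (c := M.card)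
      (r := r) (D := D) hη hK1' rfl hm1' hNη hR h3 hD1 hD2 hr'
    have h5 : ((18 : ℝ) * K + 7) * m ≤ n + (18 * K + 7) := by exact_mod_cast hnm2
    have h6 : (n₁ : ℝ) ≤ n := by
      have : n₁ ≤ n := (Nat.le_add_right _ _).trans hn
      exact_mod_cast this
    have h7 : 2 / ε * ((1 / 3 + ε / 2) * (18 * K + 7) + 3) ≤ n := hn₁.trans h6
    have h8 : (1 / 3 + ε / 2) * (18 * K + 7) + 3 ≤ ε / 2 * n := by
      have e1 := mul_le_mul_of_nonneg_left h7 (by positivity : (0 : ℝ) ≤ ε / 2)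
      have e2 : ε / 2 * (2 / ε * ((1 / 3 + ε / 2) * (18 * K + 7) + 3)) =
          (1 / 3 + ε / 2) * (18 * K + 7) + 3 := by
        field_simp
      linarith
    push_cast
    rw [hηε] at h4
    have h9 : (1 / 3 + ε / 2) * (((18 : ℝ) * K + 7) * m) ≤ (1 / 3 + ε / 2) * (n + (18 * K + 7)) :=
      mul_le_mul_of_nonneg_left h5 (by positivity)
    nlinarith

end Pool.Agent.T2H80.UP
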